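import Pool.Agent.Helper46_CM.Ext
import Pool.Agent.Helper95_CM.NN

/-!
# The step at one prime common to S1 and S2
-/

set_option autoImplicit false
set_option linter.unusedSectionVars false

noncomputable section

namespace Pool.Agent.Helper95_CM.H46

open MvPolynomial

section
variable {q : ℕ} {R S : Type} [CommRing R] [CommRing S]

lemma E3_mul_coeff (a b : ℤ) (g : Gam q) (r : R) (x : LL q R) (m : ℤ) :
    ((E3 a b g r : LL q R) * x).coeff m =
      (HahnSeries.single b (HahnSeries.single g r) : OO q R) * x.coeff (m - a) :=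
  HahnSeries.coeff_single_mul

lemma isUnit_single2 (b : ℤ) (g : Gam q) (r : R) (hr : IsUnit r) :
    IsUnit (HahnSeries.single b (HahnSeries.single g r) : OO q R) := by
  obtain ⟨u, rfl⟩ := hr
  refine IsUnit.of_mul_eq_one
    (HahnSeries.single (-b) (HahnSeries.single (-g) ((u⁻¹ : Rˣ) : R)) : OO q R) ?_
  rw [HahnSeries.single_mul_single, HahnSeries.single_mul_single, add_neg_cancel, add_neg_cancel,
    Units.mul_inv]
  rfl

lemma OrdGe_E3_mul (a b : ℤ) (g : Gam q) (r : R) (x : LL q R) (e : ℤ) (hx : OrdGe e x) :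
    OrdGe (a + e) ((E3 a b g r : LL q R) * x) := by
  intro m hm
  rw [E3_mul_coeff, hx _ (by omega), mul_zero]

lemma hmap_injective {G : Type} [AddCommGroup G] [LinearOrder G] [IsOrderedAddMonoid G]
    (f : R →+* S) (hf : Function.Injective f) : Function.Injective (hmap (G := G) f) := by
  intro x y h
  ext g
  apply hf
  have := congrArg (fun z => HahnSeries.coeff z g) h
  simpa using this

lemma mO_injective (f : R →+* S) (hf : Function.Injective f) : Function.Injective (mO q f) :=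
  hmap_injective _ (hmap_injective _ hf)

lemma mL_coeff (f : R →+* S) (x : LL q R) (m : ℤ) : (mL q f x).coeff m = mO q f (x.coeff m) := rfl

end

lemma zq_injective (p : ℕ) [Fact p.Prime] : Function.Injective (zq p) :=
  FaithfulSMul.algebraMap_injective ℤ_[p] ℚ_[p]

/-- orders descend along lifts -/
lemma OrdGe_lift {q p : ℕ} [Fact p.Prime] {K : Type} [Field K] (ι : K →+* ℚ_[p]) (x : LL q K)
    (y : LL q ℤ_[p]) (h : mL q ι x = mL q (zq p) y) (e : ℤ) (hx : OrdGe e x) : OrdGe e y := by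
  intro m hm
  apply mO_injective (q := q) (zq p) (zq_injective p)
  rw [← mL_coeff, ← h, mL_coeff, hx m hm, map_zero, map_zero]

lemma isUnit_of_dvd_factorial {p N0 : ℕ} [hp : Fact p.Prime] (h : N0 ∣ (p - 1).factorial) :
    IsUnit (N0 : ℤ_[p]) := by
  rw [PadicInt.isUnit_iff]
  by_contra hne
  have h1 : ‖(N0 : ℤ_[p])‖ < 1 := lt_of_le_of_ne (PadicInt.norm_le_one _) hne
  rw [PadicInt.norm_natCast_lt_one_iff] at h1
  have h2 := (hp.out.dvd_factorial).mp (h1.trans h)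
  have := hp.out.pos
  omega

section
variable {n M : ℕ} {b : Bool} (A : CAD n M b)

/-- the step at one prime -/
theorem step_p (D : ℕ) {p : ℕ} [hp : Fact p.Prime] (f' : MvPolynomial (Fin n) ℤ_[p])
    (Ui' : Matrix A.Bas A.Bas (LL (qG n M) ℤ_[p]))
    (hO : ∀ (σ : PP n (LL (qG n M) ℤ_[p])) (a : ℤ), IsCone M b σ → HasLev 1 σ →
        (∀ i, OrdGe a ((Ui'.mulVec (crd A (cgen D f') σ)) i)) →
        ∀ i, ∀ m : ℤ, (p : ℤ) * m < a → (p : OO (qG n M) ℤ_[p]) ∣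
          ((Ui'.mulVec (crd A (cgen D f') (cder (psL (qG n M) ℤ_[p] p)
            (psi p (σ * Fp (cgen (M := M) D f') ^ (p - 1)))))) i).coeff m)
    (m1 i1 : ℕ) (μ : Grid n M → ℕ) (hμ : ∑ β, μ β = m1) (hmi : m1 + i1 + 1 ≤ p)
    (s : Expo n) (hs : InCone M b s) (hs0 : s 0 = 1) (e0 : ℤ)
    (he : ∀ i, OrdGe (-e0) ((Ui'.mulVec (crd A (cgen D f') (mon s))) i))
    (z0 : PP n ℤ_[p]) (a' : ℤ_[p]) (ha' : IsUnit a')
    (hdiv : C (p : ℤ_[p]) ∣ psi p (mon s * (∏ β : Grid n M, mon (gex β) ^ μ β) *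
          Fp (fun β : Grid n M => ((bin β : ℕ) : ℤ_[p])) ^ (p - 1 - m1 - i1) *
          Fp (fun β : Grid n M => ftil f' β) ^ i1) - C a' * z0) :
    ∀ i, ∀ m0 : ℤ, (p : ℤ) * (m0 + D) < D * (p - m1) - e0 → (p : OO (qG n M) ℤ_[p]) ∣
      ((Ui'.mulVec (crd A (cgen D f') (map (kL (qG n M) ℤ_[p]) z0))) i).coeff m0 := by
  classical
  intro i m0 hm0
  have hp' := hp.out
  -- the coefficient of `σ`
  set z := tL (qG n M) ℤ_[p] ^ (D * (p - m1)) * wL (qG n M) ℤ_[p] ^ (p - i1) *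
        ∏ b, vL (qG n M) ℤ_[p] (gi b) ^ (p - μ b) with hz
  have hzE : z = E3 ((D * (p - m1) : ℕ) : ℤ) ((p - i1 : ℕ) : ℤ)
      (toLex fun j => ((p - μ (gi.symm j) : ℕ) : ℤ)) 1 := by
    have h1 := mono_eq (R := ℤ_[p]) (D * (p - m1)) (p - i1) (fun b : Grid n M => p - μ b) 1
    rw [map_one, mul_one] at h1
    exact h1
  set σ : PP n (LL (qG n M) ℤ_[p]) := C z * map (kL (qG n M) ℤ_[p]) (mon s) with hσ
  have hσ1 : σ = C z * mon s := by rw [hσ, map_mon]
  have hcone : IsCone M b σ := by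
    rw [hσ1]
    exact Supp.C_mul _ (Supp.monomial hs _)
  have hlev : HasLev 1 σ := by
    rw [hσ1]
    exact Supp.C_mul _ (Supp.monomial hs0 _)
  have hcrd : ∀ (a : LL (qG n M) ℤ_[p]) (x : PP n (LL (qG n M) ℤ_[p])) (j : A.Bas),
      (Ui'.mulVec (crd A (cgen D f') (C a * x))) j =
        a * (Ui'.mulVec (crd A (cgen D f') x)) j := by
    intro a x j
    rw [← smul_eq_C_mul, map_smul, Matrix.mulVec_smul, Pi.smul_apply, smul_eq_mul]
  have hord : ∀ j, OrdGe ((D * (p - m1) : ℤ) - e0) ((Ui'.mulVec (crd A (cgen D f') σ)) j) := by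
    intro j
    rw [hσ1, hcrd, hzE]
    have h1 := OrdGe_E3_mul ((D * (p - m1) : ℕ) : ℤ) ((p - i1 : ℕ) : ℤ)
      (toLex fun j => ((p - μ (gi.symm j) : ℕ) : ℤ)) (1 : ℤ_[p]) _ _ (he j)
    have h2 : (D * (p - m1) : ℤ) - e0 = ((D * (p - m1) : ℕ) : ℤ) + -e0 := by
      push_cast [Nat.cast_sub (show m1 ≤ p by omega)]
      ring
    rw [h2]
    exact h1
  have h1 := hO σ _ hcone hlev hord i (m0 + D) hm0
  obtain ⟨N0, hN0, hext⟩ := ext_main (R := ℤ_[p]) hp'.pos D f' m1 i1 μ hμ hmi (mon s)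
  have h2 : cder (psL (qG n M) ℤ_[p] p) (psi p (σ * Fp (cgen (M := M) D f') ^ (p - 1))) =
      TT p (σ * Fp (cgen (M := M) D f') ^ (p - 1)) := rfl
  rw [h2, hσ, hz, hext] at h1
  obtain ⟨y, hy⟩ := hdiv
  have h3 : psi p (mon s * (∏ β : Grid n M, mon (gex β) ^ μ β) *
          Fp (fun β : Grid n M => ((bin β : ℕ) : ℤ_[p])) ^ (p - 1 - m1 - i1) *
          Fp (fun β : Grid n M => ftil f' β) ^ i1) = C a' * z0 + C (p : ℤ_[p]) * y := by
    rw [← hy]; ring
  rw [h3] at h1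
  have h4 : (tL (qG n M) ℤ_[p] ^ D * wL (qG n M) ℤ_[p] * ∏ b, vL (qG n M) ℤ_[p] (gi b)) =
      E3 (D : ℤ) 1 (toLex fun _ => (1 : ℤ)) 1 := by
    have h6 := mono_eq (R := ℤ_[p]) D 1 (fun _ : Grid n M => 1) 1
    rw [map_one, mul_one, pow_one] at h6
    simp only [pow_one] at h6
    rw [h6]
    simp
  set c1 : ℤ_[p] := (N0 : ℤ_[p]) * (-1) ^ i1 with hc1
  have h5 : (C (tL (qG n M) ℤ_[p] ^ D * wL (qG n M) ℤ_[p] * ∏ b, vL (qG n M) ℤ_[p] (gi b)) *
        map (kL (qG n M) ℤ_[p]) (C c1 * (C a' * z0 + C (p : ℤ_[p]) * y)) :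
          PP n (LL (qG n M) ℤ_[p])) =
      C (E3 (D : ℤ) 1 (toLex fun _ => (1 : ℤ)) (c1 * a')) * map (kL (qG n M) ℤ_[p]) z0 +
        C (p : LL (qG n M) ℤ_[p]) * (C (E3 (D : ℤ) 1 (toLex fun _ => (1 : ℤ)) c1) *
          map (kL (qG n M) ℤ_[p]) y) := by
    rw [h4]
    have h7 : ∀ c : ℤ_[p], (E3 (D : ℤ) 1 (toLex fun _ => (1 : ℤ)) c : LL (qG n M) ℤ_[p]) =
        E3 (D : ℤ) 1 (toLex fun _ => (1 : ℤ)) 1 * kL (qG n M) ℤ_[p] c := by
      intro c
      rw [kL_eq, E3_mul]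
      simp
    rw [h7 (c1 * a'), h7 c1]
    simp only [map_mul, map_add, map_C, map_natCast]
    ring
  rw [h5, map_add, Matrix.mulVec_add, Pi.add_apply, hcrd, hcrd, HahnSeries.coeff_add,
    E3_mul_coeff, add_sub_cancel_right] at h1
  have h8 : (p : OO (qG n M) ℤ_[p]) ∣ ((p : LL (qG n M) ℤ_[p]) *
      (Ui'.mulVec (crd A (cgen D f') (C (E3 (D : ℤ) 1 (toLex fun _ => (1 : ℤ)) c1) *
          map (kL (qG n M) ℤ_[p]) y))) i).coeff (m0 + D) := by
    rw [← nsmul_eq_mul, HahnSeries.coeff_nsmul, Pi.smul_apply, nsmul_eq_mul]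
    exact dvd_mul_right _ _
  have h9 := (dvd_add_left h8).mp h1
  have h10 : IsUnit (HahnSeries.single (1 : ℤ) (HahnSeries.single (toLex fun _ => (1 : ℤ))
      (c1 * a')) : OO (qG n M) ℤ_[p]) := by
    apply isUnit_single2
    apply IsUnit.mul _ ha'
    rw [hc1]
    exact (isUnit_of_dvd_factorial hN0).mul ((isUnit_one.neg).pow _)
  exact (h10.dvd_mul_left).mp h9

end

end Pool.Agent.Helper95_CM.H46
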