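import Pool.Agent.Helper46_CM.S1p

/-!
# EXT: extraction of one multi-exponent from `σ F^(p-1)` by the total contraction
-/

set_option autoImplicit false
set_option linter.unusedSectionVars false

noncomputable section

namespace Pool.Agent.Helper95_CM.H46

open MvPolynomial

section
variable {q : ℕ} {R : Type} [CommRing R]

lemma psL_coeff {p : ℕ} (hp : 0 < p) (x : LL q R) (m m' : ℤ) (g : Gam q) :
    (((psL q R p x).coeff m).coeff m').coeff g =
      ((x.coeff (p • m)).coeff (p • m')).coeff (p • g) := by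
  unfold psL psO psC
  rw [AddMonoidHom.comp_apply, hpsi_coeff hp, cwA_coeff, AddMonoidHom.comp_apply, hpsi_coeff hp,
    cwA_coeff, hpsi_coeff hp]

/-- monomials of `LL` -/
def E3 (a b : ℤ) (g : Gam q) (r : R) : LL q R :=
  HahnSeries.single a (HahnSeries.single b (HahnSeries.single g r))

lemma LL_ext {x y : LL q R} (h : ∀ m m' g, ((x.coeff m).coeff m').coeff g =
    ((y.coeff m).coeff m').coeff g) : x = y := by
  ext m m' g
  exact h m m' g

lemma E3_coeff (a b : ℤ) (g : Gam q) (r : R) (m m' : ℤ) (g' : Gam q) :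
    (((E3 a b g r : LL q R).coeff m).coeff m').coeff g' =
      if m = a ∧ m' = b ∧ g' = g then r else 0 := by
  unfold E3
  rw [HahnSeries.coeff_single]
  by_cases h1 : m = a
  · rw [if_pos h1, HahnSeries.coeff_single]
    by_cases h2 : m' = b
    · rw [if_pos h2, HahnSeries.coeff_single]
      by_cases h3 : g' = g
      · rw [if_pos h3, if_pos ⟨h1, h2, h3⟩]
      · rw [if_neg h3, if_neg (fun h => h3 h.2.2)]
    · rw [if_neg h2, if_neg (fun h => h2 h.2.1)]
      rfl
  · rw [if_neg h1, if_neg (fun h => h1 h.1)]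
    rfl

lemma E3_mul (a b a' b' : ℤ) (g g' : Gam q) (r r' : R) :
    (E3 a b g r * E3 a' b' g' r' : LL q R) = E3 (a + a') (b + b') (g + g') (r * r') := by
  unfold E3
  rw [HahnSeries.single_mul_single, HahnSeries.single_mul_single, HahnSeries.single_mul_single]

lemma E3_pow (a b : ℤ) (g : Gam q) (r : R) (k : ℕ) :
    (E3 a b g r ^ k : LL q R) = E3 (k • a) (k • b) (k • g) (r ^ k) := by
  unfold E3
  rw [HahnSeries.single_pow, HahnSeries.single_pow, HahnSeries.single_pow]

lemma ofLex_nsmul (k : ℕ) (g : Gam q) (j : Fin q) : (ofLex (k • g)) j = (k : ℤ) * (ofLex g) j := by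
  have h := map_nsmul (gco q j) k g
  rw [nsmul_eq_mul] at h
  exact h

lemma ofLex_sum {ι : Type} (t : Finset ι) (g : ι → Gam q) (j : Fin q) :
    (ofLex (∑ i ∈ t, g i)) j = ∑ i ∈ t, (ofLex (g i)) j := map_sum (gco q j) g t

lemma Gam_ext {g g' : Gam q} (h : ∀ j, (ofLex g) j = (ofLex g') j) : g = g' :=
  ofLex.injective (funext h)

lemma kL_eq (r : R) : kL q R r = E3 0 0 0 r := rfl

lemma tL_eq : tL q R = E3 1 0 0 1 := rfl

lemma wL_eq : wL q R = E3 0 1 0 1 := rfl

lemma vL_eq (i : Fin q) : vL q R i = E3 0 0 (toLex (Pi.single i (1 : ℤ))) 1 := rfl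

lemma E3_one : (1 : LL q R) = E3 0 0 0 1 := rfl

lemma E3_prod {ι : Type} (t : Finset ι) (a b : ι → ℤ) (g : ι → Gam q) :
    (∏ i ∈ t, E3 (a i) (b i) (g i) (1 : R) : LL q R) =
      E3 (∑ i ∈ t, a i) (∑ i ∈ t, b i) (∑ i ∈ t, g i) 1 := by
  classical
  induction t using Finset.induction_on with
  | empty => simp only [Finset.prod_empty, Finset.sum_empty]; rfl
  | insert i t hi ih =>
    rw [Finset.prod_insert hi, Finset.sum_insert hi, Finset.sum_insert hi, Finset.sum_insert hi,
      ih, E3_mul, one_mul]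

/-- the product of all monomials -/
lemma mono_eq {n M : ℕ} {R : Type} [CommRing R] (A B : ℕ) (E : Grid n M → ℕ) (r : R) :
    (tL (qG n M) R ^ A * wL (qG n M) R ^ B * (∏ b, vL (qG n M) R (gi b) ^ E b) *
      kL (qG n M) R r) =
      E3 (A : ℤ) (B : ℤ) (toLex fun j => (E (gi.symm j) : ℤ)) r := by
  have h1 : (∏ b, vL (qG n M) R (gi b) ^ E b) = E3 0 0 (toLex fun j => (E (gi.symm j) : ℤ)) 1 := by
    have h2 : ∀ b : Grid n M, vL (qG n M) R (gi b) ^ E b =
        E3 0 0 (E b • toLex (Pi.single (gi b) (1 : ℤ))) 1 := by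
      intro b
      rw [vL_eq, E3_pow, one_pow, smul_zero]
    rw [Finset.prod_congr rfl fun b _ => h2 b, E3_prod, Finset.sum_const_zero]
    congr 1
    apply Gam_ext
    intro j
    rw [ofLex_sum, ofLex_toLex, Finset.sum_eq_single (gi.symm j)]
    · rw [ofLex_nsmul, ofLex_toLex]
      simp
    · intro b _ hb
      rw [ofLex_nsmul, ofLex_toLex, Pi.single_apply, if_neg, mul_zero]
      intro hj
      apply hb
      rw [hj, Equiv.symm_apply_apply]
    · intro h
      exact absurd (Finset.mem_univ _) h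
  rw [tL_eq, wL_eq, kL_eq, E3_pow, E3_pow, E3_mul, h1, E3_mul, E3_mul]
  simp

/-- contraction of a monomial with an exponent not divisible by `p` -/
lemma psL_E3_zero {p : ℕ} (hp : 0 < p) (a b : ℤ) (g : Gam q) (r : R)
    (h : ¬ ((p : ℤ) ∣ b ∧ ∀ j, (p : ℤ) ∣ (ofLex g) j)) : psL q R p (E3 a b g r) = 0 := by
  apply LL_ext
  intro m m' g'
  rw [psL_coeff hp, E3_coeff, if_neg]
  · rfl
  · rintro ⟨_, h2, h3⟩
    apply h
    constructor
    · rw [← h2, nsmul_eq_mul]; exact dvd_mul_right _ _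
    · intro j
      rw [← h3, ofLex_nsmul]
      exact dvd_mul_right _ _

lemma psL_E3_smul {p : ℕ} (hp : 0 < p) (a b : ℤ) (g : Gam q) (r : R) :
    psL q R p (E3 (p • a) (p • b) (p • g) r) = E3 a b g r := by
  apply LL_ext
  intro m m' g'
  rw [psL_coeff hp, E3_coeff, E3_coeff]
  have h1 : ∀ x y : ℤ, p • x = p • y ↔ x = y := fun x y => (smul_pos_inj hp).eq_iff
  have h2 : ∀ x y : Gam q, p • x = p • y ↔ x = y := fun x y => (smul_pos_inj hp).eq_iff
  simp only [h1, h2]

/-- contraction of coefficients and of exponents -/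
def TT (p : ℕ) {n : ℕ} (x : PP n (LL q R)) : PP n (LL q R) := cder (psL q R p) (psi p x)

lemma TT_coeff {n : ℕ} {p : ℕ} (hp : 0 < p) (x : PP n (LL q R)) (s : Expo n) :
    coeff s (TT p x) = psL q R p (coeff (p • s) x) := by
  unfold TT
  rw [coeff_cder, coeff_psi hp]

lemma TT_sum {n : ℕ} {p : ℕ} (hp : 0 < p) {ι : Type} (t : Finset ι) (x : ι → PP n (LL q R)) :
    TT p (∑ i ∈ t, x i) = ∑ i ∈ t, TT p (x i) := by
  ext1 s
  rw [TT_coeff hp, coeff_sum, map_sum, coeff_sum]
  simp only [TT_coeff hp]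

/-- a monomial coefficient times a polynomial with constant coefficients, bad exponents -/
lemma TT_zero {n : ℕ} {p : ℕ} (hp : 0 < p) (a b : ℤ) (g : Gam q) (y : PP n R)
    (h : ¬ ((p : ℤ) ∣ b ∧ ∀ j, (p : ℤ) ∣ (ofLex g) j)) :
    TT p (C (E3 a b g 1 : LL q R) * map (kL q R) y) = 0 := by
  ext1 s
  rw [TT_coeff hp, coeff_C_mul, coeff_map, kL_eq, E3_mul, coeff_zero]
  simp only [add_zero, one_mul]
  exact psL_E3_zero hp _ _ _ _ h

/-- good exponents -/
lemma TT_smul {n : ℕ} {p : ℕ} (hp : 0 < p) (a b : ℤ) (g : Gam q) (y : PP n R) :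
    TT p (C (E3 (p • a) (p • b) (p • g) 1 : LL q R) * map (kL q R) y) =
      C (E3 a b g 1 : LL q R) * map (kL q R) (psi p y) := by
  ext1 s
  rw [TT_coeff hp, coeff_C_mul, coeff_map, kL_eq, E3_mul, coeff_C_mul, coeff_map, kL_eq, E3_mul,
    coeff_psi hp]
  simp only [add_zero, one_mul]
  exact psL_E3_smul hp _ _ _ _

end

section
variable {n M : ℕ} {R : Type} [CommRing R]

/-- the summands of `F` -/
def XX (D : ℕ) (f : MvPolynomial (Fin n) R) : Grid n M ⊕ Bool → PP n (LL (qG n M) R)
  | Sum.inl b => C (tL (qG n M) R ^ D * vL (qG n M) R (gi b)) * mon (gex b)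
  | Sum.inr false => map (kL (qG n M) R) (Fp (fun β : Grid n M => ((bin β : ℕ) : R)))
  | Sum.inr true => - (C (wL (qG n M) R) * map (kL (qG n M) R) (Fp (fun β : Grid n M => ftil f β)))

lemma Fp_cgen (D : ℕ) (f : MvPolynomial (Fin n) R) :
    (Fp (cgen (M := M) D f) : PP n (LL (qG n M) R)) = ∑ i, XX (M := M) D f i := by
  rw [Fintype.sum_sum_type, Fintype.sum_bool]
  simp only [XX]
  rw [map_Fp, map_Fp]
  unfold Fp
  rw [Finset.mul_sum, ← Finset.sum_neg_distrib, ← Finset.sum_add_distrib, ← Finset.sum_add_distrib]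
  apply Finset.sum_congr rfl
  intro β _
  unfold cgen mon
  rw [C_mul_monomial, C_mul_monomial, mul_one, ← map_neg, ← map_add, ← map_add]
  congr 1
  simp only [map_natCast]
  ring

/-- EXT -/
theorem ext_main {p : ℕ} (hp : 0 < p) (D : ℕ) (f : MvPolynomial (Fin n) R) (m i : ℕ)
    (μ : Grid n M → ℕ) (hμ : ∑ β, μ β = m) (hmi : m + i + 1 ≤ p) (x : PP n R) :
    ∃ N0 : ℕ, N0 ∣ (p - 1).factorial ∧
    TT p (C (tL (qG n M) R ^ (D * (p - m)) * wL (qG n M) R ^ (p - i) *
        ∏ b, vL (qG n M) R (gi b) ^ (p - μ b)) * map (kL (qG n M) R) x *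
        Fp (cgen (M := M) D f) ^ (p - 1)) =
      C (tL (qG n M) R ^ D * wL (qG n M) R * ∏ b, vL (qG n M) R (gi b)) *
        map (kL (qG n M) R) (C ((N0 : R) * (-1) ^ i) *
          psi p (x * (∏ β : Grid n M, mon (gex β) ^ μ β) *
          Fp (fun β : Grid n M => ((bin β : ℕ) : R)) ^ (p - 1 - m - i) *
          Fp (fun β : Grid n M => ftil f β) ^ i)) := by
  classical
  set k0 : Grid n M ⊕ Bool → ℕ := Sum.elim μ (fun b => if b then i else p - 1 - m - i) with hk0
  have hk0m : k0 ∈ Finset.piAntidiag Finset.univ (p - 1) := by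
    rw [Finset.mem_piAntidiag]
    refine ⟨?_, fun _ _ => Finset.mem_univ _⟩
    rw [Fintype.sum_sum_type, Fintype.sum_bool]
    simp only [hk0, Sum.elim_inl, Sum.elim_inr, if_true]
    simp
    omega
  refine ⟨Nat.multinomial Finset.univ k0, ?_, ?_⟩
  · have h1 := Nat.multinomial_spec Finset.univ k0
    rw [(Finset.mem_piAntidiag.mp hk0m).1] at h1
    rw [← h1]
    exact dvd_mul_left _ _
  -- the general summand
  have hterm : ∀ k : Grid n M ⊕ Bool → ℕ,
      C (tL (qG n M) R ^ (D * (p - m)) * wL (qG n M) R ^ (p - i) *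
        ∏ b, vL (qG n M) R (gi b) ^ (p - μ b)) * map (kL (qG n M) R) x *
        ((Nat.multinomial Finset.univ k : PP n (LL (qG n M) R)) *
          ∏ j, XX (M := M) D f j ^ k j) =
      C (E3 ((D * (p - m) + D * ∑ b, k (Sum.inl b) : ℕ) : ℤ) ((p - i + k (Sum.inr true) : ℕ) : ℤ)
        (toLex fun j => ((p - μ (gi.symm j) + k (Sum.inl (gi.symm j)) : ℕ) : ℤ)) 1) *
        map (kL (qG n M) R) (C ((Nat.multinomial Finset.univ k : R) * (-1) ^ k (Sum.inr true)) *
          (x * (∏ β : Grid n M, mon (gex β) ^ k (Sum.inl β)) *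
          Fp (fun β : Grid n M => ((bin β : ℕ) : R)) ^ k (Sum.inr false) *
          Fp (fun β : Grid n M => ftil f β) ^ k (Sum.inr true))) := by
    intro k
    rw [Fintype.prod_sum_type, Fintype.prod_bool]
    simp only [XX]
    have h1 : E3 ((D * (p - m) + D * ∑ b, k (Sum.inl b) : ℕ) : ℤ)
        ((p - i + k (Sum.inr true) : ℕ) : ℤ)
        (toLex fun j => ((p - μ (gi.symm j) + k (Sum.inl (gi.symm j)) : ℕ) : ℤ)) (1 : R) =
        tL (qG n M) R ^ (D * (p - m)) * wL (qG n M) R ^ (p - i) *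
        (∏ b, vL (qG n M) R (gi b) ^ (p - μ b)) * ((∏ b : Grid n M,
          (tL (qG n M) R ^ D * vL (qG n M) R (gi b)) ^ k (Sum.inl b)) *
          wL (qG n M) R ^ k (Sum.inr true)) := by
      have h2 := mono_eq (R := R) (D * (p - m) + D * ∑ b, k (Sum.inl b)) (p - i + k (Sum.inr true))
        (fun b : Grid n M => p - μ b + k (Sum.inl b)) 1
      rw [← h2, map_one, mul_one]
      simp only [mul_pow, pow_add, Finset.prod_mul_distrib, ← pow_mul, Finset.mul_sum]
      rw [Finset.prod_pow_eq_pow_sum]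
      ring
    rw [h1]
    have h3 : (∏ b : Grid n M, (C (tL (qG n M) R ^ D * vL (qG n M) R (gi b)) * mon (gex b) :
        PP n (LL (qG n M) R)) ^ k (Sum.inl b)) =
        C (∏ b : Grid n M, (tL (qG n M) R ^ D * vL (qG n M) R (gi b)) ^ k (Sum.inl b)) *
        map (kL (qG n M) R) (∏ β : Grid n M, mon (gex β) ^ k (Sum.inl β)) := by
      simp only [mul_pow, Finset.prod_mul_distrib, map_mul, map_prod, map_pow, map_mon]
    rw [h3, neg_pow]
    simp only [map_mul, map_pow, map_natCast, map_neg, map_one, mul_pow]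
    ring
  rw [Fp_cgen, Finset.sum_pow_eq_sum_piAntidiag, Finset.mul_sum, TT_sum hp,
    Finset.sum_eq_single k0]
  · rw [hterm]
    have h1 : ((D * (p - m) + D * ∑ b, k0 (Sum.inl b) : ℕ) : ℤ) = p • (D : ℤ) := by
      have h2 : ∑ b, k0 (Sum.inl b) = m := hμ
      rw [h2, ← Nat.mul_add, show p - m + m = p by omega, nsmul_eq_mul]
      push_cast
      ring
    have h2 : ((p - i + k0 (Sum.inr true) : ℕ) : ℤ) = p • (1 : ℤ) := by
      have h3 : k0 (Sum.inr true) = i := by rw [hk0, Sum.elim_inr]; simp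
      rw [h3, show p - i + i = p by omega, nsmul_eq_mul, mul_one]
    have h3 : (toLex fun j => ((p - μ (gi.symm j) + k0 (Sum.inl (gi.symm j)) : ℕ) : ℤ) :
        Gam (qG n M)) = p • (toLex fun _ => (1 : ℤ)) := by
      apply Gam_ext
      intro j
      have h4 : μ (gi.symm j) ≤ m := by
        rw [← hμ]
        exact Finset.single_le_sum (f := μ) (fun _ _ => Nat.zero_le _) (Finset.mem_univ _)
      rw [ofLex_nsmul, ofLex_toLex, ofLex_toLex, mul_one, hk0, Sum.elim_inl]
      rw [show p - μ (gi.symm j) + μ (gi.symm j) = p by omega]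
    rw [h1, h2, h3, TT_smul hp, psi_C_mul hp]
    have h5 : (E3 (D : ℤ) 1 (toLex fun _ => (1 : ℤ)) 1 : LL (qG n M) R) =
        tL (qG n M) R ^ D * wL (qG n M) R * ∏ b, vL (qG n M) R (gi b) := by
      have h6 := mono_eq (R := R) D 1 (fun _ : Grid n M => 1) 1
      rw [map_one, mul_one, pow_one] at h6
      simp only [pow_one] at h6
      rw [h6]
      simp
    have h7 : k0 (Sum.inr true) = i := by rw [hk0, Sum.elim_inr]; simp
    have h8 : k0 (Sum.inr false) = p - 1 - m - i := by rw [hk0, Sum.elim_inr]; simp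
    rw [h5, h7, h8]
    simp only [hk0, Sum.elim_inl]
  · intro k hk hne
    rw [hterm]
    apply TT_zero hp
    rintro ⟨h1, h2⟩
    apply hne
    have hsum := (Finset.mem_piAntidiag.mp hk).1
    rw [Fintype.sum_sum_type, Fintype.sum_bool] at hsum
    have hle : ∀ b, k (Sum.inl b) ≤ p - 1 := by
      intro b
      have : k (Sum.inl b) ≤ ∑ b, k (Sum.inl b) :=
        Finset.single_le_sum (f := fun b => k (Sum.inl b)) (fun _ _ => Nat.zero_le _)
          (Finset.mem_univ b)
      omega
    have hμle : ∀ b, μ b ≤ m := by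
      intro b
      rw [← hμ]
      exact Finset.single_le_sum (f := μ) (fun _ _ => Nat.zero_le _) (Finset.mem_univ b)
    have hb : ∀ b : Grid n M, k (Sum.inl b) = μ b := by
      intro b
      have h3 := h2 (gi b)
      rw [ofLex_toLex] at h3
      simp only [Equiv.symm_apply_apply] at h3
      have h4 : p ∣ p - μ b + k (Sum.inl b) := by exact_mod_cast h3
      have h5 := hle b
      have h6 := hμle b
      obtain ⟨z, hz⟩ := h4
      have h7 : z = 1 := by
        rcases Nat.lt_trichotomy z 1 with h8 | h8 | h8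
        · have : z = 0 := by omega
          rw [this, mul_zero] at hz
          omega
        · exact h8
        · have : p * 2 ≤ p * z := Nat.mul_le_mul_left p h8
          omega
      rw [h7, mul_one] at hz
      omega
    have hi' : k (Sum.inr true) = i := by
      have h4 : p ∣ p - i + k (Sum.inr true) := by exact_mod_cast h1
      obtain ⟨z, hz⟩ := h4
      have h7 : z = 1 := by
        rcases Nat.lt_trichotomy z 1 with h8 | h8 | h8
        · have : z = 0 := by omega
          rw [this, mul_zero] at hz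
          omega
        · exact h8
        · have : p * 2 ≤ p * z := Nat.mul_le_mul_left p h8
          omega
      rw [h7, mul_one] at hz
      omega
    have hs : ∑ b, k (Sum.inl b) = m := by
      rw [← hμ]
      exact Finset.sum_congr rfl fun b _ => hb b
    funext j
    rcases j with b | b
    · rw [hk0, Sum.elim_inl, hb b]
    · rcases b with _ | _
      · rw [hk0, Sum.elim_inr]
        simp
        omega
      · rw [hk0, Sum.elim_inr, hi']
        simp
  · intro h
    exact absurd hk0m h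

end

end Pool.Agent.Helper95_CM.H46
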