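import Pool.Agent.Helper95_CM.StG

/-!
# MONO: a power of `f(1-u)` has a monomial with all exponents large, modulo `p`
-/

set_option autoImplicit false
set_option linter.unusedSectionVars false

noncomputable section

namespace Pool.Agent.Helper95_CM.H46

open MvPolynomial

namespace MonoAux

variable {σ R : Type} [CommRing R]

/-- iterated partial derivatives -/
def Dl (ks : List σ) (h : MvPolynomial σ R) : MvPolynomial σ R :=
  ks.foldr (fun k x => pderiv k x) h

lemma Dl_nil (h : MvPolynomial σ R) : Dl [] h = h := rfl

lemma Dl_cons (k : σ) (ks : List σ) (h : MvPolynomial σ R) :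
    Dl (k :: ks) h = pderiv k (Dl ks h) := rfl

/-- Faà di Bruno for powers -/
lemma Dl_pow (g : MvPolynomial σ R) (ks : List σ) :
    ∃ Q : ℕ → MvPolynomial σ R, Q ks.length = (ks.map fun k => pderiv k g).prod ∧
      ∀ i : ℕ, Dl ks (g ^ i) = ∑ k ∈ Finset.range (ks.length + 1),
        ((i.descFactorial k : ℕ) : MvPolynomial σ R) * g ^ (i - k) * Q k := by
  induction ks with
  | nil =>
    refine ⟨fun _ => 1, by simp, fun i => ?_⟩
    simp [Dl_nil]
  | cons k0 ks ih =>
    obtain ⟨Q, hQ, hD⟩ := ih
    refine ⟨fun k => (if k ≤ ks.length then pderiv k0 (Q k) else 0) +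
      (if k = 0 then 0 else pderiv k0 g * Q (k - 1)), ?_, ?_⟩
    · simp only [List.length_cons, List.map_cons, List.prod_cons]
      rw [if_neg (by omega), if_neg (by omega), zero_add, Nat.add_sub_cancel, hQ]
    · intro i
      rw [Dl_cons, hD i, map_sum]
      have hterm : ∀ k : ℕ, pderiv k0 (((i.descFactorial k : ℕ) : MvPolynomial σ R) *
          g ^ (i - k) * Q k) =
          ((i.descFactorial k : ℕ) : MvPolynomial σ R) * g ^ (i - k) * pderiv k0 (Q k) +
          ((i.descFactorial (k + 1) : ℕ) : MvPolynomial σ R) * g ^ (i - (k + 1)) *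
            (pderiv k0 g * Q k) := by
        intro k
        rw [Derivation.leibniz, Derivation.leibniz, Derivation.leibniz_pow, Derivation.map_natCast,
          Nat.descFactorial_succ]
        simp only [smul_eq_mul, nsmul_eq_mul, mul_zero, add_zero]
        rw [show i - k - 1 = i - (k + 1) by omega]
        push_cast
        ring
      rw [Finset.sum_congr rfl fun k _ => hterm k, Finset.sum_add_distrib]
      simp only [mul_add, Finset.sum_add_distrib, List.length_cons]
      congr 1
      · rw [Finset.sum_range_succ _ (ks.length + 1)]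
        rw [if_neg (by omega), mul_zero, add_zero]
        apply Finset.sum_congr rfl
        intro k hk
        rw [if_pos (by simpa using Nat.lt_succ_iff.mp (Finset.mem_range.mp hk))]
      · rw [Finset.sum_range_succ' _ (ks.length + 1)]
        rw [if_pos rfl, mul_zero, add_zero]
        apply Finset.sum_congr rfl
        intro k hk
        rw [if_neg (by omega), Nat.add_sub_cancel]

/-- some power with small exponent has nonzero derivative -/
lemma exists_pow_ne [IsDomain R] (g : MvPolynomial σ R) (ks : List σ)
    (hg : ∀ k ∈ ks, pderiv k g ≠ 0) (hf : ∀ i ≤ ks.length, (i.factorial : R) ≠ 0) :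
    ∃ i ≤ ks.length, Dl ks (g ^ i) ≠ 0 := by
  obtain ⟨Q, hQ, hD⟩ := Dl_pow g ks
  by_contra hcon
  push Not at hcon
  have hall : ∀ i ≤ ks.length, Q i = 0 := by
    intro i
    induction i using Nat.strong_induction_on with
    | _ i ih =>
      intro hi
      have h0 := hcon i hi
      rw [hD i, Finset.sum_eq_single i] at h0
      · rw [Nat.sub_self, pow_zero, mul_one, Nat.descFactorial_self] at h0
        rcases mul_eq_zero.mp h0 with h1 | h1
        · exfalso
          apply hf i hi
          have h2 : (C ((i.factorial : ℕ) : R) : MvPolynomial σ R) = C 0 := by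
            rw [map_natCast, h1, map_zero]
          exact C_injective _ _ h2
        · exact h1
      · intro k hk hki
        rcases lt_or_gt_of_ne hki with h1 | h1
        · rw [ih k h1 (by omega), mul_zero]
        · rw [Nat.descFactorial_eq_zero_iff_lt.mpr h1, Nat.cast_zero, zero_mul, zero_mul]
      · intro hni
        exfalso
        apply hni
        rw [Finset.mem_range]
        omega
  have h1 := hall ks.length le_rfl
  rw [hQ, List.prod_eq_zero_iff] at h1
  rw [List.mem_map] at h1
  obtain ⟨k, hk, hk0⟩ := h1
  exact hg k hk hk0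

lemma coeff_Dl_ne [DecidableEq σ] (ks : List σ) (h : MvPolynomial σ R) (v : σ →₀ ℕ)
    (hv : coeff v (Dl ks h) ≠ 0) :
    ∃ v' : σ →₀ ℕ, coeff v' h ≠ 0 ∧ ∀ k, v k + ks.count k ≤ v' k := by
  induction ks generalizing v with
  | nil => exact ⟨v, hv, fun k => by simp⟩
  | cons k0 ks ih =>
    rw [Dl_cons, coeff_pderiv] at hv
    obtain ⟨v', h1, h2⟩ := ih (v + Finsupp.single k0 1) (by
      intro h0
      apply hv
      rw [h0]
      simp)
    refine ⟨v', h1, fun k => ?_⟩
    have h3 := h2 k
    rw [Finsupp.add_apply] at h3
    rw [List.count_cons]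
    by_cases hk : k0 = k
    · subst hk
      simp at h3 ⊢
      omega
    · rw [Finsupp.single_eq_of_ne (Ne.symm hk)] at h3
      simp [hk]
      omega

/-- the substitution `X ↦ 1 - X` -/
def sb : MvPolynomial σ R →ₐ[R] MvPolynomial σ R := aeval (fun k => 1 - X k)

lemma sb_sb (q : MvPolynomial σ R) : sb (sb q) = q := by
  have h : (sb (σ := σ) (R := R)).comp sb = AlgHom.id R _ := by
    apply MvPolynomial.algHom_ext
    intro k
    simp [sb]
  exact DFunLike.congr_fun h q

lemma pderiv_sb (k : σ) (q : MvPolynomial σ R) : pderiv k (sb q) = - sb (pderiv k q) := by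
  classical
  induction q using MvPolynomial.induction_on with
  | C a => simp [sb]
  | add p q hp hq => rw [map_add, map_add, map_add, map_add, hp, hq]; ring
  | mul_X p i hp =>
    rw [map_mul, Derivation.leibniz, Derivation.leibniz, hp, map_add, smul_eq_mul, smul_eq_mul,
      smul_eq_mul, smul_eq_mul, map_mul, map_mul]
    have h1 : pderiv k (sb (X i : MvPolynomial σ R)) = - sb (pderiv k (X i)) := by
      simp only [sb, aeval_X, map_sub, Derivation.map_one_eq_zero, zero_sub, pderiv_X]
      rw [Pi.single_apply]
      split_ifs <;> simp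
    rw [h1]
    ring

lemma map_sb {S : Type} [CommRing S] (g : R →+* S) (q : MvPolynomial σ R) :
    map g (sb q) = sb (map g q) := by
  induction q using MvPolynomial.induction_on with
  | C a => simp [sb]
  | add p q hp hq => rw [map_add, map_add, map_add, map_add, hp, hq]
  | mul_X p i hp => simp only [map_mul, hp, map_X]; simp [sb]

end MonoAux

open MonoAux

/-- MONO -/
theorem mono (hU : UniStmt) : MonoStmt := by
  intro n K _ _ f hn hf
  choose u hu hu0 using hf
  have huK : ∀ k, ∃ p0 : ℕ, ∀ (p : ℕ) [Fact p.Prime], p0 ≤ p → ∀ ι : K →+* ℚ_[p],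
      ‖ι (coeff (u k) f)‖ = 1 := fun k => hU K (coeff (u k) f) (mem_support_iff.mp (hu k))
  choose pk hpk using huK
  refine ⟨∑ k, (pk k + u k k + 1), ?_⟩
  intro p hp hp0 ι f' hlift j a hjp haj
  have hpk0 : ∀ k, pk k + u k k + 1 ≤ p := fun k =>
    (Finset.single_le_sum (f := fun k => pk k + u k k + 1) (fun _ _ => Nat.zero_le _)
      (Finset.mem_univ k)).trans hp0
  set r : ℤ_[p] →+* ZMod p := PadicInt.toZMod with hr
  set fb : MvPolynomial (Fin n) (ZMod p) := map r f' with hfb
  have hcoef : ∀ k, coeff (u k) fb ≠ 0 := by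
    intro k
    rw [hfb, coeff_map]
    have h1 := hpk k p (by have := hpk0 k; omega) ι
    have h2 : ι (coeff (u k) f) = zq p (coeff (u k) f') := by
      have h3 := congrArg (coeff (u k)) hlift
      rwa [coeff_map, coeff_map] at h3
    rw [h2] at h1
    have h4 : IsUnit (coeff (u k) f') := PadicInt.isUnit_iff.mpr h1
    exact (h4.map r).ne_zero
  have hder : ∀ k, pderiv k (sb fb) ≠ 0 := by
    intro k h0
    rw [pderiv_sb, neg_eq_zero] at h0
    have h1 : pderiv k fb = 0 := by rw [← sb_sb (pderiv k fb), h0, map_zero]
    have h2 := congrArg (coeff (u k - Finsupp.single k 1)) h1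
    rw [coeff_pderiv, coeff_zero] at h2
    have h3 : u k - Finsupp.single k 1 + Finsupp.single k 1 = u k := by
      apply tsub_add_cancel_of_le
      rw [Finsupp.single_le_iff]
      exact hu0 k
    rw [h3] at h2
    rcases mul_eq_zero.mp h2 with h4 | h4
    · exact hcoef k h4
    · have h5 : ((((u k - Finsupp.single k 1 : Fin n →₀ ℕ) k + 1 : ℕ)) : ZMod p) = 0 := by
        push_cast
        exact h4
      rw [ZMod.natCast_eq_zero_iff] at h5
      have h6 : (u k - Finsupp.single k 1 : Fin n →₀ ℕ) k + 1 = u k k := by
        have := hu0 k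
        simp
        omega
      rw [h6] at h5
      have h7 := Nat.le_of_dvd (hu0 k) h5
      have := hpk0 k
      omega
  set ks : List (Fin n) := (List.finRange n).flatMap (fun k => List.replicate a k) with hks
  have hlen : ks.length = n * a := by
    simp [hks, List.length_flatMap]
  have hcount : ∀ k, ks.count k = a := by
    intro k
    rw [hks, List.count_flatMap]
    have h1 : (List.map (List.count k ∘ fun k => List.replicate a k) (List.finRange n)) =
        (List.finRange n).map (fun k' => if k' = k then a else 0) := by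
      apply List.map_congr_left
      intro k' _
      simp only [Function.comp_apply, List.count_replicate]
      by_cases h : k' = k
      · simp [h]
      · simp [h]
    rw [h1, ← Fin.sum_univ_def, Finset.sum_ite_eq' Finset.univ k, if_pos (Finset.mem_univ k)]
  obtain ⟨i, hi, hDi⟩ := exists_pow_ne (sb fb) ks (fun k _ => hder k) (by
    intro i hi h0
    rw [ZMod.natCast_eq_zero_iff, hp.out.dvd_factorial] at h0
    omega)
  obtain ⟨v0, hv0⟩ := MvPolynomial.ne_zero_iff.mp hDi
  obtain ⟨v, hv, hvk⟩ := coeff_Dl_ne ks _ v0 hv0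
  refine ⟨i, by omega, v, fun k => ?_, ?_⟩
  · have := hvk k
    rw [hcount k] at this
    omega
  · intro hdvd
    apply hv
    have h1 : sb fb ^ i = map r ((aeval (fun k => 1 - X k : Fin n →
        MvPolynomial (Fin n) ℤ_[p]) f') ^ i) := by
      rw [map_pow]
      congr 1
      rw [hfb]
      exact (map_sb r f').symm
    rw [h1, coeff_map]
    obtain ⟨z, hz⟩ := hdvd
    rw [hz, map_mul, map_natCast]
    simp

end Pool.Agent.Helper95_CM.H46
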