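import Pool.Agent.Helper95_CM.StG
import Pool.Agent.Helper95_CM.Base

/-!
# Polynomial identities for the geometric family
-/

set_option autoImplicit false
set_option linter.unusedSectionVars false

noncomputable section

namespace Pool.Agent.Helper95_CM.H46

open MvPolynomial

section
variable {n M : ℕ} {R S : Type} [CommRing R] [CommRing S]

lemma monomial_mkE (l : ℕ) (u : Fin n → ℕ) (a : R) :
    (monomial (mkE l u) a : PP n R) = C a * (X 0 ^ l * ∏ k : Fin n, X k.succ ^ u k) := by
  rw [monomial_eq, Finsupp.prod_fintype _ _ (fun i => by rw [pow_zero]), Fin.prod_univ_succ]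
  simp

lemma mon_mkE (l : ℕ) (u : Fin n → ℕ) :
    (mon (mkE l u) : PP n R) = X 0 ^ l * ∏ k : Fin n, X k.succ ^ u k := by
  unfold mon; rw [monomial_mkE, C_1, one_mul]

lemma gex_eq (β : Grid n M) : gex β = mkE 1 (fun k => (β k : ℕ)) := rfl

lemma X_pow_mul_one_add (x : R) (u : ℕ) (hu : u ≤ M) :
    x ^ u * (1 + x) ^ (M - u) =
      ∑ b : Fin (M + 1), (if u ≤ (b : ℕ) then (Nat.choose (M - u) ((b : ℕ) - u) : R) else 0) *
        x ^ (b : ℕ) := by
  rw [Fin.sum_univ_eq_sum_range (fun b => (if u ≤ b then (Nat.choose (M - u) (b - u) : R) else 0) *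
        x ^ b) (M + 1)]
  have h1 : M + 1 = u + (M - u + 1) := by omega
  have h2 : ∑ b ∈ Finset.range u, (if u ≤ b then (Nat.choose (M - u) (b - u) : R) else 0) *
        x ^ b = 0 := by
    apply Finset.sum_eq_zero
    intro b hb
    rw [if_neg (by have := Finset.mem_range.mp hb; omega), zero_mul]
  have h3 : ∑ b ∈ Finset.range (M + 1), (if u ≤ b then (Nat.choose (M - u) (b - u) : R) else 0) *
        x ^ b = ∑ b ∈ Finset.range (M - u + 1), (Nat.choose (M - u) b : R) * x ^ (u + b) := by
    rw [h1, Finset.sum_range_add, h2, zero_add]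
    apply Finset.sum_congr rfl
    intro m _
    rw [if_pos (by omega), show u + m - u = m by omega]
  rw [h3, add_comm (1 : R) x, add_pow, Finset.mul_sum]
  apply Finset.sum_congr rfl
  intro m _
  rw [one_pow, pow_add]
  ring

/-- expansion of products over the grid -/
lemma grid_expand (u : Fin n → ℕ) (hu : ∀ k, u k ≤ M) :
    (∑ β : Grid n M, monomial (gex β)
      (∏ k, (if u k ≤ (β k : ℕ) then (Nat.choose (M - u k) ((β k : ℕ) - u k) : R) else 0)) : PP n R)
      = X 0 * ∏ k : Fin n, (X k.succ ^ u k * (1 + X k.succ) ^ (M - u k)) := by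
  have h1 : ∀ k : Fin n, (X k.succ ^ u k * (1 + X k.succ) ^ (M - u k) : PP n R) =
      ∑ b : Fin (M + 1), (if u k ≤ (b : ℕ) then (Nat.choose (M - u k) ((b : ℕ) - u k) : PP n R)
        else 0) * X k.succ ^ (b : ℕ) := fun k => X_pow_mul_one_add _ _ (hu k)
  rw [Finset.prod_congr rfl fun k _ => h1 k, Finset.prod_univ_sum, Finset.mul_sum,
    Fintype.piFinset_univ]
  apply Finset.sum_congr rfl
  intro β _
  rw [gex_eq, monomial_mkE, pow_one, Finset.prod_mul_distrib]
  rw [map_prod]
  have h2 : ∀ k, (C (if u k ≤ (β k : ℕ) then (Nat.choose (M - u k) ((β k : ℕ) - u k) : R) else 0) :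
      PP n R) = if u k ≤ (β k : ℕ) then (Nat.choose (M - u k) ((β k : ℕ) - u k) : PP n R) else 0 := by
    intro k
    split_ifs
    · rw [map_natCast]
    · rw [map_zero]
  rw [Finset.prod_congr rfl fun k _ => h2 k]
  ring

lemma Fp_bin : (Fp (fun β : Grid n M => ((bin β : ℕ) : R)) : PP n R) =
    X 0 * ∏ k : Fin n, (1 + X k.succ) ^ M := by
  have h := grid_expand (R := R) (M := M) (fun _ : Fin n => 0) (fun _ => Nat.zero_le _)
  simp only [pow_zero, one_mul, Nat.sub_zero, Nat.zero_le, if_true] at h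
  rw [← h]
  unfold Fp bin
  apply Finset.sum_congr rfl
  intro β _
  push_cast
  rfl

/-- the polynomial `Σ_u f_u Π y_k^(u_k) (1+y_k)^(M-u_k)` -/
def ft (M : ℕ) (f : MvPolynomial (Fin n) R) : MvPolynomial (Fin n) R :=
  f.support.sum fun u => C (coeff u f) * ∏ k, (X k ^ (u k) * (1 + X k) ^ (M - u k))

lemma Fp_ftil (f : MvPolynomial (Fin n) R) (hf : ∀ k, degreeOf k f ≤ M) :
    (Fp (fun β : Grid n M => ftil f β) : PP n R) = X 0 * rename Fin.succ (ft M f) := by
  have h1 : ∀ u ∈ f.support, ∀ k, u k ≤ M := by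
    intro u hu k
    exact (degreeOf_le_iff.mp (hf k)) u hu
  unfold Fp ft ftil
  rw [map_sum, Finset.mul_sum]
  simp only [map_sum]
  rw [Finset.sum_comm]
  apply Finset.sum_congr rfl
  intro u hu
  rw [map_mul, rename_C, map_prod]
  simp only [map_mul, map_pow, rename_X, map_add, map_one]
  have h2 := grid_expand (R := R) (M := M) (fun k => u k) (h1 u hu)
  calc _ = C (coeff u f) * (∑ β : Grid n M, monomial (gex β)
      (∏ k, (if u k ≤ (β k : ℕ) then (Nat.choose (M - u k) ((β k : ℕ) - u k) : R) else 0)) :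
        PP n R) := by
        rw [Finset.mul_sum]
        apply Finset.sum_congr rfl
        intro β _
        rw [C_mul_monomial]
    _ = _ := by rw [h2]; ring

lemma map_ft (g : R →+* S) (hg : Function.Injective g) (f : MvPolynomial (Fin n) R) :
    map g (ft M f) = ft M (map g f) := by
  unfold ft
  rw [support_map_of_injective _ hg, map_sum]
  apply Finset.sum_congr rfl
  intro u _
  rw [map_mul, map_C, coeff_map, map_prod]
  simp

lemma degreeOf_one_add_X [Nontrivial R] (j k : Fin n) :
    degreeOf k (1 + X j : MvPolynomial (Fin n) R) ≤ if k = j then 1 else 0 := by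
  classical
  refine (degreeOf_add_le _ _ _).trans ?_
  rw [degreeOf_one, degreeOf_X]
  simp

lemma degreeOf_prod_one_add (r : Fin n → ℕ) (k : Fin n) [Nontrivial R] :
    degreeOf k (∏ j, (1 + X j : MvPolynomial (Fin n) R) ^ r j) ≤ r k := by
  classical
  refine (degreeOf_prod_le _ _ _).trans ?_
  calc ∑ j, degreeOf k ((1 + X j : MvPolynomial (Fin n) R) ^ r j)
      ≤ ∑ j, r j * (if k = j then 1 else 0) := by
        apply Finset.sum_le_sum
        intro j _
        exact (degreeOf_pow_le _ _ _).trans (Nat.mul_le_mul_left _ (degreeOf_one_add_X j k))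
    _ = r k := by simp

lemma degreeOf_ft [Nontrivial R] (f : MvPolynomial (Fin n) R) (hf : ∀ k, degreeOf k f ≤ M)
    (k : Fin n) : degreeOf k (ft M f) ≤ M := by
  classical
  unfold ft
  refine (degreeOf_sum_le _ _ _).trans ?_
  apply Finset.sup_le
  intro u hu
  refine (degreeOf_C_mul_le _ _ _).trans ?_
  rw [Finset.prod_mul_distrib]
  refine (degreeOf_mul_le _ _ _).trans ?_
  have h1 : degreeOf k (∏ j, (X j : MvPolynomial (Fin n) R) ^ u j) ≤ u k := by
    refine (degreeOf_prod_le _ _ _).trans ?_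
    calc ∑ j, degreeOf k ((X j : MvPolynomial (Fin n) R) ^ u j)
        ≤ ∑ j, u j * (if k = j then 1 else 0) := by
          apply Finset.sum_le_sum
          intro j _
          refine (degreeOf_pow_le _ _ _).trans (Nat.mul_le_mul_left _ ?_)
          rw [degreeOf_X]
      _ = u k := by simp
  have h2 := degreeOf_prod_one_add (R := R) (fun j => M - u j) k
  have h3 : u k ≤ M := (degreeOf_le_iff.mp (hf k)) u hu
  omega

end

end Pool.Agent.Helper95_CM.H46
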