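import Pool.Agent.Helper46_CM.Core

/-!
# S1 and S2
-/

set_option autoImplicit false
set_option linter.unusedSectionVars false

noncomputable section

namespace Pool.Agent.Helper95_CM.H46

open MvPolynomial

lemma exists_ord {R : Type} [CommRing R] (x : LaurentSeries R) :
    ∃ e : ℕ, OrdGe (-(e : ℤ)) x := by
  by_cases h : x = 0
  · exact ⟨0, fun m _ => by rw [h]; rfl⟩
  · refine ⟨(-(x.order : ℤ)).toNat, fun m hm => ?_⟩
    apply HahnSeries.coeff_eq_zero_of_lt_order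
    have : -(x.order : ℤ) ≤ (-(x.order : ℤ)).toNat := Int.self_le_toNat _
    exact lt_of_lt_of_le hm (by omega)

lemma exists_ord_fin {R ι : Type} [CommRing R] [Fintype ι] (x : ι → LaurentSeries R) :
    ∃ e : ℕ, ∀ i, OrdGe (-(e : ℤ)) (x i) := by
  choose e he using fun i => exists_ord (x i)
  refine ⟨∑ i, e i, fun i m hm => he i m ?_⟩
  have : e i ≤ ∑ i, e i := Finset.single_le_sum (fun _ _ => Nat.zero_le _) (Finset.mem_univ i)
  have h2 : ((e i : ℕ) : ℤ) ≤ ((∑ i, e i : ℕ) : ℤ) := by exact_mod_cast this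
  omega

lemma not_isUnit_p (q p : ℕ) [Fact p.Prime] : ¬ IsUnit (p : OO q ℤ_[p]) := by
  rintro ⟨u, hu⟩
  have h1 : (p : OO q ℤ_[p]) * ((u⁻¹ : (OO q ℤ_[p])ˣ) : OO q ℤ_[p]) = 1 := by
    rw [← hu, Units.mul_inv]
  have h2 : ((((p : OO q ℤ_[p]) * ((u⁻¹ : (OO q ℤ_[p])ˣ) : OO q ℤ_[p])).coeff 0).coeff 0) =
      (((1 : OO q ℤ_[p]).coeff 0).coeff 0) := by rw [h1]
  rw [← nsmul_eq_mul, HahnSeries.coeff_nsmul, Pi.smul_apply, HahnSeries.coeff_nsmul,
    Pi.smul_apply, nsmul_eq_mul] at h2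
  have h3 : (((1 : OO q ℤ_[p]).coeff 0).coeff 0) = (1 : ℤ_[p]) := by
    rw [HahnSeries.coeff_one, if_pos rfl, HahnSeries.coeff_one, if_pos rfl]
  rw [h3] at h2
  exact PadicInt.prime_p.not_isUnit (IsUnit.of_mul_eq_one _ h2)

section
variable {n M : ℕ} {b : Bool} (A : CAD n M b) {K : Type} [Field K] [NumberField K]

/-- coordinates in the lattice at the level of `K` and at `p` -/
lemma lift_vec (hCGP : CgpStmt) (D : ℕ) (f : MvPolynomial (Fin n) K)
    (U Ui Rv : Matrix A.Bas A.Bas (LL (qG n M) K)) (hG : GData n M D K f) :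
    ∃ p0 : ℕ, ∀ (p : ℕ) [Fact p.Prime], p0 ≤ p → ∀ (ι : K →+* ℚ_[p])
      (f' : MvPolynomial (Fin n) ℤ_[p]) (Dl : PP n (LL (qG n M) ℤ_[p]))
      (U' Ui' Rv' : Matrix A.Bas A.Bas (LL (qG n M) ℤ_[p])),
      PLift A D f U Ui Rv ι f' Dl U' Ui' Rv' →
      ∀ (x : PP n (LL (qG n M) K)) (x' : PP n (LL (qG n M) ℤ_[p])),
        map (mL (qG n M) ι) x = map (mL (qG n M) (zq p)) x' → ∀ i,
        mL (qG n M) ι ((Ui.mulVec (crd A (cgen D f) x)) i) =
          mL (qG n M) (zq p) ((Ui'.mulVec (crd A (cgen D f') x')) i) := by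
  obtain ⟨p0, e, h0⟩ := hCGP n M D b A K f hG
  refine ⟨p0, ?_⟩
  intro p _ hp ι f' Dl U' Ui' Rv' hL x x' hx i
  obtain ⟨_, h1⟩ := h0 p hp ι
  obtain ⟨_, _, _, _, h2, _⟩ := h1 f' hL.lf
  simp only [Matrix.mulVec, dotProduct, map_sum, map_mul]
  apply Finset.sum_congr rfl
  intro j _
  rw [h2 x x' hx j]
  congr 1
  have h3 := congrFun (congrFun hL.lUi i) j
  exact h3

/-- a nonzero coefficient stays nonzero modulo large `p` -/
lemma not_dvd (hCGP : CgpStmt) (hCGU : CguStmt) (hSPO : SpoStmt) (hSPG : SpgStmt) (D : ℕ)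
    (f : MvPolynomial (Fin n) K) (U Ui Rv : Matrix A.Bas A.Bas (LL (qG n M) K))
    (hG : GData n M D K f) (hU : ULat A D f U Ui Rv) (x : PP n (LL (qG n M) K))
    (hx : ∀ s, InG (coeff s x)) (i : A.Bas) (m0 : ℤ)
    (hne : ((Ui.mulVec (crd A (cgen D f) x)) i).coeff m0 ≠ 0) :
    ∃ p0 : ℕ, ∀ (p : ℕ) [Fact p.Prime], p0 ≤ p → ∀ (ι : K →+* ℚ_[p])
      (f' : MvPolynomial (Fin n) ℤ_[p]) (Dl : PP n (LL (qG n M) ℤ_[p]))
      (U' Ui' Rv' : Matrix A.Bas A.Bas (LL (qG n M) ℤ_[p])),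
      PLift A D f U Ui Rv ι f' Dl U' Ui' Rv' →
      ∀ (x' : PP n (LL (qG n M) ℤ_[p])),
        map (mL (qG n M) ι) x = map (mL (qG n M) (zq p)) x' →
        ¬ (p : OO (qG n M) ℤ_[p]) ∣ ((Ui'.mulVec (crd A (cgen D f') x')) i).coeff m0 := by
  obtain ⟨S, hS⟩ := (hSPG (qG n M) K).1
  have hcrd := (hCGU n M D b A K f hG).2.2.2.1 x hx
  have hin : InG ((Ui.mulVec (crd A (cgen D f) x)) i) := by
    rw [← hS]
    simp only [Matrix.mulVec, dotProduct]
    apply sum_mem
    intro j _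
    exact mul_mem ((hS _).mpr (hU.gUi i j)) ((hS _).mpr (hcrd j))
  obtain ⟨p1, h1⟩ := (hSPO (qG n M) K _ (hin.2 m0)).2.2.2 hne
  obtain ⟨p2, h2⟩ := lift_vec A hCGP D f U Ui Rv hG
  refine ⟨max p1 p2, ?_⟩
  intro p _ hp ι f' Dl U' Ui' Rv' hL x' hx' hdvd
  have h3 := h2 p (le_trans (le_max_right _ _) hp) ι f' Dl U' Ui' Rv' hL x x' hx' i
  have h4 := congrArg (fun z : LL (qG n M) ℚ_[p] => z.coeff m0) h3
  simp only [mL_coeff] at h4
  have h5 := h1 p (le_trans (le_max_left _ _) hp) ι _ h4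
  exact not_isUnit_p _ p (isUnit_of_dvd_unit hdvd h5)

end

/-- S1 -/
theorem s1 (hS1P : S1pStmt) (hORD : OrdpStmt) (hPLX : PlxStmt) (hCGP : CgpStmt) (hCGU : CguStmt)
    (hSPO : SpoStmt) (hSPG : SpgStmt) (hSPLIT : SplitStmt) : S1Stmt := by
  classical
  intro n M D A K _ _ f U Ui Rv hG hU hf
  obtain ⟨κ, pS, hκ, hS⟩ := hS1P n M K f ⟨hG.hn, hG.hM, le_rfl, hG.deg⟩ hf
  have hM2 := hG.hM
  have hD1 := hG.hD
  -- uniform pole bound
  obtain ⟨e0, he0⟩ := exists_ord_fin (fun ui : (Fin n → Fin M) × A.Bas =>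
    (Ui.mulVec (crd A (cgen D f) (mon (mkE 1 fun k => (ui.1 k : ℕ)) :
      PP n (LL (qG n M) K)))) ui.2)
  obtain ⟨q1, hq1⟩ := exists_ord_fin (fun i : A.Bas =>
    (Ui.mulVec (crd A (cgen D f) (omg n M (LL (qG n M) K)))) i)
  have hex : ∃ q : ℕ, ∀ i, OrdGe (-(q : ℤ))
      ((Ui.mulVec (crd A (cgen D f) (omg n M (LL (qG n M) K)))) i) := ⟨q1, hq1⟩
  refine ⟨Nat.find hex, ?_, Nat.find_spec hex⟩
  by_contra hlt
  rw [not_lt] at hlt
  set q0 := Nat.find hex with hq0
  have hq0pos : 0 < q0 := by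
    rcases Nat.eq_zero_or_pos q0 with h | h
    · rw [h, zero_mul] at hlt; omega
    · exact h
  have hmin := Nat.find_min hex (m := q0 - 1) (by omega)
  have hspec := Nat.find_spec hex
  rw [← hq0] at hspec
  have hexi : ∃ i, ((Ui.mulVec (crd A (cgen D f) (omg n M (LL (qG n M) K)))) i).coeff (-(q0 : ℤ))
      ≠ 0 := by
    by_contra hall
    push Not at hall
    apply hmin
    intro i m hm
    by_cases h1 : m < -(q0 : ℤ)
    · exact hspec i m h1
    · have : m = -(q0 : ℤ) := by omega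
      rw [this]
      exact hall i
  obtain ⟨i, hi⟩ := hexi
  have hkL : ∀ a : K, InG (kL (qG n M) K a) := (hSPG (qG n M) K).2.2.2.2.2.1
  have homg : ∀ s, InG (coeff s (omg n M (LL (qG n M) K))) := by
    intro s
    rw [← map_omg (kL (qG n M) K), coeff_map]
    exact hkL _
  obtain ⟨p1, h1⟩ := not_dvd A hCGP hCGU hSPO hSPG D f U Ui Rv hG hU _ homg i _ hi
  obtain ⟨p2, h2⟩ := lift_vec A hCGP D f U Ui Rv hG
  obtain ⟨p3, h3⟩ := hORD n M D true A K f U Ui Rv hG hU
  obtain ⟨p4, h4⟩ := hPLX n M D true A K f U Ui Rv hG hU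
  obtain ⟨p, hp, hpge, ⟨ι⟩⟩ := hSPLIT K (p1 + p2 + p3 + p4 + pS + κ * M * e0 + 1)
  obtain ⟨f', Dl, U', Ui', Rv', hL⟩ := h4 p (by omega) ι
  obtain ⟨m, i1, μ, u, a', hμ, hmi, hu, ha', hκm, hdiv⟩ := hS p (by omega) ι f' hL.lf
  have hord := h3 p (by omega) ι f' Dl U' Ui' Rv' hL
  have hmapmon : ∀ s : Expo n, map (mL (qG n M) ι) (mon s : PP n (LL (qG n M) K)) =
      map (mL (qG n M) (zq p)) (mon s) := by
    intro s; rw [map_mon, map_mon]
  have hbound : ∀ j, OrdGe (-(e0 : ℤ)) ((Ui'.mulVec (crd A (cgen D f') (mon (mkE 1 u)))) j) := by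
    intro j
    refine OrdGe_lift ι _ _ (h2 p (by omega) ι f' Dl U' Ui' Rv' hL _ _ (hmapmon _) j) _ ?_
    exact he0 (fun k => ⟨u k, (hu k).2⟩, j)
  have hstep := step_p A D f' Ui' hord m i1 μ hμ hmi (mkE 1 u) (fun k => by
    rw [mkE_succ, mkE_zero, mul_one]
    exact hu k) (mkE_zero _ _) e0 hbound (omg n M ℤ_[p]) a' ha' hdiv i (-(q0 : ℤ)) (by
      have hkey : D * m + e0 < p * q0 := by
        have hκM : 0 < κ * M := Nat.mul_pos (by omega) (by omega)
        apply lt_of_mul_lt_mul_left _ (Nat.zero_le (κ * M))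
        have hA : κ * M * (D * m + e0) + D * p ≤ D * (κ * p) + κ * M * e0 := by
          calc κ * M * (D * m + e0) + D * p = D * (κ * M * m + p) + κ * M * e0 := by ring
            _ ≤ D * (κ * p) + κ * M * e0 := by
              have := Nat.mul_le_mul_left D hκm
              omega
        have hB : κ * M * e0 < D * p := by
          calc κ * M * e0 < p := by omega
            _ = 1 * p := (one_mul p).symm
            _ ≤ D * p := Nat.mul_le_mul_right p hD1
        have hC : D * (κ * p) ≤ κ * M * (p * q0) := by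
          calc D * (κ * p) ≤ q0 * M * (κ * p) := Nat.mul_le_mul_right _ hlt
            _ = κ * M * (p * q0) := by ring
        omega
      have hkey' : (D : ℤ) * m + e0 < p * q0 := by exact_mod_cast hkey
      have : (p : ℤ) * (-(q0 : ℤ) + D) = p * D - p * q0 := by ring
      have : (D : ℤ) * (p - m) = p * D - D * m := by ring
      linarith)
  rw [map_omg] at hstep
  exact h1 p (by omega) ι f' Dl U' Ui' Rv' hL _ (by rw [map_omg, map_omg]) hstep

/-! ### S2 -/

/-- the contraction behind S2 -/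
lemma psi_S2 {n M : ℕ} {R : Type} [CommRing R] {p j : ℕ} (hp : 0 < p) (hj : M * j + 1 ≤ p)
    (hj1 : j + 1 ≤ p) (β : Grid n M) :
    psi p ((mon (gex β) : PP n R) ^ (p - j) *
      Fp (fun β : Grid n M => ((bin β : ℕ) : R)) ^ j) =
      C (∏ k, (Nat.choose (M * j) (j * (β k : ℕ)) : R)) * mon (gex β) := by
  classical
  have hFp : (Fp (fun β : Grid n M => ((bin β : ℕ) : R)) : PP n R) ^ j =
      X 0 ^ j * ∏ k : Fin n, (1 + X k.succ) ^ (M * j) := by
    rw [Fp_bin, mul_pow, ← Finset.prod_pow]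
    simp only [← pow_mul]
  have hgrid := grid_expand (R := R) (M := M * j) (fun _ : Fin n => 0) (fun _ => Nat.zero_le _)
  simp only [pow_zero, one_mul, Nat.sub_zero, Nat.zero_le, if_true] at hgrid
  have h1 : (mon (gex β) : PP n R) ^ (p - j) *
      Fp (fun β : Grid n M => ((bin β : ℕ) : R)) ^ j =
      ∑ e : Grid n (M * j), monomial (mkE p (fun k => (p - j) * (β k : ℕ) + (e k : ℕ)))
        (∏ k, (Nat.choose (M * j) (e k : ℕ) : R)) := by
    have h2 : ∀ e : Grid n (M * j), (monomial (mkE p (fun k => (p - j) * (β k : ℕ) + (e k : ℕ)))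
        (∏ k, (Nat.choose (M * j) (e k : ℕ) : R)) : PP n R) =
        (X 0 ^ (p - 1) * ∏ k : Fin n, X k.succ ^ ((p - j) * (β k : ℕ))) *
          monomial (gex e) (∏ k, (Nat.choose (M * j) (e k : ℕ) : R)) := by
      intro e
      rw [gex_eq, monomial_mkE, monomial_mkE]
      simp only [pow_add, Finset.prod_mul_distrib]
      have : (X 0 : PP n R) ^ p = X 0 ^ (p - 1) * X 0 ^ 1 := by
        rw [← pow_add]; congr 1; omega
      rw [this]
      ring
    rw [Finset.sum_congr rfl fun e _ => h2 e, ← Finset.mul_sum, hgrid, hFp, gex_eq, mon_mkE,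
      mul_pow, ← Finset.prod_pow]
    have : (X 0 : PP n R) ^ (p - 1) * X 0 = (X 0 ^ 1) ^ (p - j) * X 0 ^ j := by
      rw [← pow_succ, pow_one, ← pow_add]; congr 1; omega
    simp only [← pow_mul]
    have h5 : ∀ k : Fin n, (X k.succ : PP n R) ^ ((β k : ℕ) * (p - j)) =
        X k.succ ^ ((p - j) * (β k : ℕ)) := fun k => by rw [Nat.mul_comm]
    rw [Finset.prod_congr rfl fun k _ => h5 k]
    calc _ = (X 0 ^ (1 * (p - j)) * X 0 ^ j) * ((∏ k : Fin n, X k.succ ^ ((p - j) * (β k : ℕ))) *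
        ∏ k : Fin n, (1 + X k.succ) ^ (M * j)) := by ring
      _ = (X 0 ^ (p - 1) * X 0) * ((∏ k : Fin n, X k.succ ^ ((p - j) * (β k : ℕ))) *
        ∏ k : Fin n, (1 + X k.succ) ^ (M * j)) := by rw [this, pow_mul]
      _ = _ := by ring
  have hβle : ∀ k, j * (β k : ℕ) ≤ M * j := by
    intro k
    calc j * (β k : ℕ) ≤ j * M := Nat.mul_le_mul_left j (Nat.lt_succ_iff.mp (β k).2)
      _ = M * j := Nat.mul_comm _ _
  set e0 : Grid n (M * j) := fun k => ⟨j * (β k : ℕ), Nat.lt_succ_iff.mpr (hβle k)⟩ with he0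
  rw [h1, psi_sum hp, Finset.sum_eq_single e0]
  · have h3 : (mkE p (fun k => (p - j) * (β k : ℕ) + (e0 k : ℕ)) : Expo n) = p • gex β := by
      ext i
      refine Fin.cases ?_ (fun k => ?_) i
      · rw [mkE_zero, Finsupp.smul_apply, gex_zero, smul_eq_mul, mul_one]
      · rw [mkE_succ, Finsupp.smul_apply, gex_succ, smul_eq_mul]
        show (p - j) * (β k : ℕ) + j * (β k : ℕ) = p * (β k : ℕ)
        rw [← Nat.add_mul]
        congr 1
        omega
    rw [h3, psi_monomial_smul hp, mon, C_mul_monomial, mul_one]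
  · intro e _ hne
    ext s
    rw [coeff_psi hp, coeff_monomial, if_neg, coeff_zero]
    intro h4
    apply hne
    funext k
    have h5 := DFunLike.congr_fun h4 k.succ
    rw [mkE_succ, Finsupp.smul_apply, smul_eq_mul] at h5
    apply Fin.ext
    show (e k : ℕ) = j * (β k : ℕ)
    have h6 := Nat.lt_succ_iff.mp (e k).2
    have h7 := hβle k
    -- `e k ≡ j β_k` modulo `p`
    have h8 : (p : ℤ) ∣ (e k : ℤ) - j * (β k : ℤ) := by
      have h9 : ((p - j : ℕ) : ℤ) * (β k : ℤ) + (e k : ℤ) = p * (s k.succ : ℤ) := by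
        exact_mod_cast h5
      rw [Nat.cast_sub (by omega)] at h9
      refine ⟨(s k.succ : ℤ) - (β k : ℤ), ?_⟩
      linarith
    obtain ⟨z, hz⟩ := h8
    have h9 : (j * (β k : ℕ) : ℤ) ≤ M * j := by exact_mod_cast h7
    have h10 : ((e k : ℕ) : ℤ) ≤ M * j := by exact_mod_cast h6
    have h11 : (M * j + 1 : ℤ) ≤ p := by exact_mod_cast hj
    have h12 : (0 : ℤ) ≤ (e k : ℤ) := Int.natCast_nonneg _
    have h13 : (0 : ℤ) ≤ (j * (β k : ℕ) : ℤ) := by positivity
    have h14 : z = 0 := by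
      by_contra hz0
      rcases lt_or_gt_of_ne hz0 with h15 | h15
      · have : (p : ℤ) * z ≤ p * (-1) := mul_le_mul_of_nonneg_left (by omega) (by omega)
        linarith
      · have : (p : ℤ) * 1 ≤ p * z := mul_le_mul_of_nonneg_left (by omega) (by omega)
        linarith
    rw [h14, mul_zero] at hz
    have h16 : ((e k : ℕ) : ℤ) = ((j * (β k : ℕ) : ℕ) : ℤ) := by push_cast; linarith
    exact_mod_cast h16
  · intro h
    exact absurd (Finset.mem_univ _) h

lemma sub_aux1 (p j : ℕ) (h : j + 1 ≤ p) : p - 1 - (p - 1 - j) - 0 = j := by omega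

lemma sub_aux2 (p j : ℕ) (h : j + 1 ≤ p) : p - 1 - j + 0 + 1 ≤ p := by omega

/-- S2 -/
theorem s2 (hORD : OrdpStmt) (hPLX : PlxStmt) (hCGP : CgpStmt) (hCGU : CguStmt)
    (hSPO : SpoStmt) (hSPG : SpgStmt) (hSPLIT : SplitStmt) : S2Stmt := by
  classical
  intro n M D A K _ _ f U Ui Rv hG hU hMD β i m0 hm0
  by_contra hi
  have hM2 := hG.hM
  have hD1 := hG.hD
  obtain ⟨e0, he0⟩ := exists_ord_fin (fun j : A.Bas =>
    (Ui.mulVec (crd A (cgen D f) (mon (gex β) : PP n (LL (qG n M) K)))) j)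
  have hkL : ∀ a : K, InG (kL (qG n M) K a) := (hSPG (qG n M) K).2.2.2.2.2.1
  have hmon : ∀ s, InG (coeff s (mon (gex β) : PP n (LL (qG n M) K))) := by
    intro s
    rw [← map_mon (kL (qG n M) K), coeff_map]
    exact hkL _
  obtain ⟨p1, h1⟩ := not_dvd A hCGP hCGU hSPO hSPG D f U Ui Rv hG hU _ hmon i _ hi
  obtain ⟨p2, h2⟩ := lift_vec A hCGP D f U Ui Rv hG
  obtain ⟨p3, h3⟩ := hORD n M D false A K f U Ui Rv hG hU
  obtain ⟨p4, h4⟩ := hPLX n M D false A K f U Ui Rv hG hU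
  obtain ⟨p, hp, hpge, ⟨ι⟩⟩ := hSPLIT K (p1 + p2 + p3 + p4 + e0 + 3)
  obtain ⟨f', Dl, U', Ui', Rv', hL⟩ := h4 p (by omega) ι
  have hord := h3 p (by omega) ι f' Dl U' Ui' Rv' hL
  have hmapmon : map (mL (qG n M) ι) (mon (gex β) : PP n (LL (qG n M) K)) =
      map (mL (qG n M) (zq p)) (mon (gex β)) := by
    rw [map_mon, map_mon]
  have hbound : ∀ j, OrdGe (-(e0 : ℤ)) ((Ui'.mulVec (crd A (cgen D f') (mon (gex β)))) j) := by
    intro j
    exact OrdGe_lift ι _ _ (h2 p (by omega) ι f' Dl U' Ui' Rv' hL _ _ hmapmon j) _ (he0 j)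
  set j := (p - 1) / M with hj
  have hMj : M * j ≤ p - 1 := Nat.mul_div_le _ _
  have hMj2 : p - 1 < M * j + M := by
    have := Nat.lt_mul_div_succ (p - 1) (show 0 < M by omega)
    rw [Nat.mul_succ] at this
    exact this
  have hjp : j + 1 ≤ p := by
    have : 2 * j ≤ M * j := Nat.mul_le_mul_right j hM2
    omega
  have hdiv : C (p : ℤ_[p]) ∣ psi p (mon (gex β) *
      (∏ β' : Grid n M, mon (gex β') ^ (if β' = β then p - 1 - j else 0)) *
          Fp (fun β : Grid n M => ((bin β : ℕ) : ℤ_[p])) ^ (p - 1 - (p - 1 - j) - 0) *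
          Fp (fun β : Grid n M => ftil f' β) ^ 0) -
        C (∏ k, (Nat.choose (M * j) (j * (β k : ℕ)) : ℤ_[p])) * mon (gex β) := by
    have h5 : (∏ β' : Grid n M, (mon (gex β') : PP n ℤ_[p]) ^ (if β' = β then p - 1 - j else 0)) =
        mon (gex β) ^ (p - 1 - j) := by
      rw [Finset.prod_eq_single β]
      · rw [if_pos rfl]
      · intro b _ hb
        rw [if_neg hb, pow_zero]
      · intro h
        exact absurd (Finset.mem_univ _) h
    rw [h5, pow_zero, mul_one, ← pow_succ', show p - 1 - j + 1 = p - j by omega,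
      sub_aux1 p j hjp,
      psi_S2 hp.out.pos (by have := hp.out.pos; omega) hjp β, sub_self]
    exact dvd_zero _
  have hunit : IsUnit (∏ k, (Nat.choose (M * j) (j * (β k : ℕ)) : ℤ_[p])) := by
    apply Finset.prod_induction _ IsUnit (fun _ _ => IsUnit.mul) isUnit_one
    intro k _
    apply isUnit_of_dvd_factorial (p := p)
    have h5 : j * (β k : ℕ) ≤ M * j := by
      calc j * (β k : ℕ) ≤ j * M := Nat.mul_le_mul_left j (Nat.lt_succ_iff.mp (β k).2)
        _ = M * j := Nat.mul_comm _ _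
    refine dvd_trans ?_ (Nat.factorial_dvd_factorial hMj)
    rw [← Nat.choose_mul_factorial_mul_factorial h5, mul_assoc]
    exact dvd_mul_right _ _
  have hstep := step_p A D f' Ui' hord (p - 1 - j) 0 (fun β' => if β' = β then p - 1 - j else 0)
    (by simp) (sub_aux2 p j hjp) (gex β) (inCone_gex β) (gex_zero β) e0 hbound (mon (gex β)) _
    hunit hdiv i m0 (by
      obtain ⟨D', hD'⟩ := hMD
      have hDM : D / M = D' := by
        rw [hD']; exact Nat.mul_div_cancel_left _ (by omega)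
      rw [hDM] at hm0
      have hkey : D' * p ≤ D * (1 + j) := by
        calc D' * p ≤ D' * (M * j + M) := Nat.mul_le_mul_left _ (by omega)
          _ = D * (1 + j) := by rw [hD']; ring
      have hkey' : (D' : ℤ) * p ≤ D * (1 + j) := by exact_mod_cast hkey
      have hc : ((p - 1 - j : ℕ) : ℤ) = (p : ℤ) - 1 - j := by
        have : ((p - 1 - j : ℕ) : ℤ) + j + 1 = p := by
          have : p - 1 - j + j + 1 = p := by omega
          exact_mod_cast this
        linarith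
      rw [hc]
      have h6 : (p : ℤ) * (m0 + D) ≤ p * (D' - 1) := by
        apply mul_le_mul_of_nonneg_left _ (by positivity)
        linarith [Int.add_one_le_iff.mpr hm0]
      have h7 : (e0 : ℤ) < p := by
        have : e0 < p := by omega
        exact_mod_cast this
      have h8 : (p : ℤ) * (D' - 1) = D' * p - p := by ring
      have h9 : (D : ℤ) * (p - (p - 1 - j)) = D * (1 + j) := by ring
      linarith)
  rw [map_mon] at hstep
  exact h1 p (by omega) ι f' Dl U' Ui' Rv' hL _ hmapmon hstep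

end Pool.Agent.Helper95_CM.H46
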