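import Pool.Agent.Helper46_CM.Poly

/-!
# S1P: the polynomial identity behind S1
-/

set_option autoImplicit false
set_option linter.unusedSectionVars false

noncomputable section

namespace Pool.Agent.Helper95_CM.H46

open MvPolynomial

/-! ### divisibility by `p` of polynomials over `ℤ_p` and reduction -/

section
variable {p : ℕ} [Fact p.Prime] {σ : Type}

lemma dvd_iff_toZMod (x : ℤ_[p]) : (p : ℤ_[p]) ∣ x ↔ PadicInt.toZMod x = 0 := by
  rw [← RingHom.mem_ker, PadicInt.ker_toZMod, PadicInt.maximalIdeal_eq_span_p,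
    Ideal.mem_span_singleton]

lemma C_dvd_iff (x : MvPolynomial σ ℤ_[p]) :
    C (p : ℤ_[p]) ∣ x ↔ map (PadicInt.toZMod (p := p)) x = 0 := by
  rw [C_dvd_iff_dvd_coeff]
  constructor
  · intro h
    ext s
    rw [coeff_map, coeff_zero]
    exact (dvd_iff_toZMod _).mp (h s)
  · intro h s
    rw [dvd_iff_toZMod, ← coeff_map, h, coeff_zero]

end

section
variable {n M : ℕ} {R S : Type} [CommRing R] [CommRing S]

lemma map_omg (g : R →+* S) : map g (omg n M R) = omg n M S := by
  unfold omg
  rw [map_mul, map_X, map_prod]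
  simp

/-- contraction of `y^s h` when the exponents of `h` are small -/
lemma psi_window {p lo : ℕ} (hp : 0 < p) (s e : Fin n →₀ ℕ) (h : MvPolynomial (Fin n) R)
    (hs : ∀ k, 1 ≤ s k) (hse : ∀ k, s k + e k = p) (he : ∀ k, lo ≤ e k)
    (hh : ∀ k, degreeOf k h ≤ p - 1 + lo) :
    psi p (rename Fin.succ (monomial s 1 * h) : PP n R) =
      C (coeff e h) * ∏ k : Fin n, X k.succ := by
  classical
  have hmon : (∏ k : Fin n, X k.succ : PP n R) = mon (mkE 0 (fun _ => 1)) := by
    rw [mon_mkE]; simp
  ext t
  rw [coeff_psi hp, coeff_C_mul, hmon, mon, coeff_monomial]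
  by_cases ht0 : t 0 = 0
  · set t' : Fin n →₀ ℕ := Finsupp.equivFunOnFinite.symm (fun k => t k.succ) with ht'
    have htt : t = t'.mapDomain Fin.succ := by
      ext j
      refine Fin.cases ?_ (fun k => ?_) j
      · rw [ht0, Finsupp.mapDomain_of_notMem_range]
        rintro ⟨k, hk⟩
        exact absurd hk (Fin.succ_ne_zero k)
      · rw [Finsupp.mapDomain_apply (Fin.succ_injective n)]
        rfl
    have htp : p • t = (p • t').mapDomain Fin.succ := by
      rw [Finsupp.mapDomain_smul, ← htt]
    rw [htp, coeff_rename_mapDomain _ (Fin.succ_injective n), coeff_monomial_mul']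
    by_cases h1 : ∀ k : Fin n, t k.succ = 1
    · have h2 : mkE 0 (fun _ => 1) = t := by
        ext j
        refine Fin.cases ?_ (fun k => ?_) j
        · rw [mkE_zero, ht0]
        · rw [mkE_succ, h1 k]
      rw [if_pos h2, mul_one, one_mul, if_pos]
      · congr 1
        ext k
        rw [Finsupp.tsub_apply, Finsupp.smul_apply, ht']
        simp only [Finsupp.equivFunOnFinite_symm_apply_apply, h1 k, smul_eq_mul, mul_one]
        have := hse k
        omega
      · intro k
        rw [Finsupp.smul_apply, ht']
        simp only [Finsupp.equivFunOnFinite_symm_apply_apply, h1 k, smul_eq_mul, mul_one]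
        have := hse k
        omega
    · have h2 : ¬ mkE 0 (fun _ => 1) = t := by
        intro h2
        apply h1
        intro k
        rw [← h2, mkE_succ]
      rw [if_neg h2, mul_zero]
      push Not at h1
      obtain ⟨k, hk⟩ := h1
      split_ifs with hle
      · rw [one_mul]
        by_contra hne
        have h3 := (degreeOf_le_iff.mp (hh k)) _ (mem_support_iff.mpr hne)
        rw [Finsupp.tsub_apply, Finsupp.smul_apply, ht'] at h3
        simp only [Finsupp.equivFunOnFinite_symm_apply_apply, smul_eq_mul] at h3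
        have h4 := hle k
        rw [Finsupp.smul_apply, ht'] at h4
        simp only [Finsupp.equivFunOnFinite_symm_apply_apply, smul_eq_mul] at h4
        have h5 := hs k
        have h6 := hse k
        have h7 := he k
        have h8 : 2 ≤ t k.succ := by
          by_contra h9
          have h10 : t k.succ = 0 := by omega
          rw [h10, mul_zero] at h4
          omega
        have h11 : p * 2 ≤ p * t k.succ := Nat.mul_le_mul_left p h8
        omega
      · rfl
  · have h2 : ¬ mkE 0 (fun _ => 1) = t := by
      intro h2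
      apply ht0
      rw [← h2, mkE_zero]
    rw [if_neg h2, mul_zero]
    apply coeff_rename_eq_zero
    intro u hu
    exfalso
    have h3 := DFunLike.congr_fun hu 0
    rw [Finsupp.mapDomain_of_notMem_range, Finsupp.smul_apply, smul_eq_mul] at h3
    · have h4 : 0 < p * t 0 := Nat.mul_pos hp (Nat.pos_of_ne_zero ht0)
      omega
    · rintro ⟨k, hk⟩
      exact absurd hk (Fin.succ_ne_zero k)

end

lemma mon_zero {n : ℕ} {R : Type} [CommRing R] : (mon (0 : Expo n) : PP n R) = 1 := rfl

lemma mon_add {n : ℕ} {R : Type} [CommRing R] (a b : Expo n) :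
    (mon (a + b) : PP n R) = mon a * mon b := by
  unfold mon; rw [monomial_mul, one_mul]

lemma mon_sum {n : ℕ} {R : Type} [CommRing R] {ι : Type} (t : Finset ι) (a : ι → Expo n) :
    (mon (∑ j ∈ t, a j) : PP n R) = ∏ j ∈ t, mon (a j) := by
  classical
  induction t using Finset.induction_on with
  | empty => rw [Finset.sum_empty, Finset.prod_empty, mon_zero]
  | insert j t hj ih => rw [Finset.sum_insert hj, Finset.prod_insert hj, mon_add, ih]

/-- products over the grid of powers given by the multiplicities of a family -/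
lemma prod_mult {n M m : ℕ} {R : Type} [CommRing R] [DecidableEq (Grid n M)]
    (β : Fin m → Grid n M) :
    (∏ b : Grid n M, (mon (gex b) : PP n R) ^ (Finset.univ.filter fun j => β j = b).card) =
      mon (∑ j, gex (β j)) := by
  rw [mon_sum, ← Finset.prod_fiberwise Finset.univ β (fun j => (mon (gex (β j)) : PP n R))]
  apply Finset.prod_congr rfl
  intro b _
  rw [Finset.prod_congr rfl (g := fun _ => (mon (gex b) : PP n R)), Finset.prod_const]
  intro j hj
  rw [(Finset.mem_filter.mp hj).2]

/-- S1P -/
theorem s1p (hM : MonoStmt) (hW : WinStmt) (hD : DecStmt) : S1pStmt := by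
  classical
  intro n M K _ _ f hG hf
  obtain ⟨p1, hp1⟩ := hM n K f hG.hn hf
  set B := (2 * M + 1) * n with hB
  have hn := hG.hn
  have hM2 := hG.hM
  refine ⟨2 * B, p1 + B * (M + 4), ?_, ?_⟩
  · have : 0 < B := by rw [hB]; positivity
    omega
  intro p hp hp0 ι f' hlift
  have hp' := hp.out
  have hBpos : 0 < B := by rw [hB]; positivity
  have hB4 : B * (M + 4) ≤ p := by omega
  set j' := p / (2 * M + 1) with hj'
  set a' := j' / n with ha'
  have ha'2 : a' = p / B := by rw [ha', hj', Nat.div_div_eq_div_mul]
  have hBa : B * a' ≤ p := by rw [ha'2]; exact Nat.mul_div_le p B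
  have hBa2 : p < B * a' + B := by
    rw [ha'2]
    have := Nat.lt_mul_div_succ p hBpos
    rw [Nat.mul_succ] at this
    exact this
  have ha'M : M + 3 ≤ a' := by
    by_contra hlt
    have h1 : B * a' ≤ B * (M + 2) := Nat.mul_le_mul_left _ (by omega)
    have h2 : B * (M + 4) = B * (M + 2) + B + B := by ring
    omega
  have hj'p : j' < p := Nat.div_lt_self hp'.pos (by omega)
  have hna : n * a' ≤ j' := Nat.mul_div_le j' n
  obtain ⟨i, hi, v, hv, hvc⟩ := hp1 p (by omega) ι f' hlift j' a' hj'p hna
  have hBi : (2 * M + 1) * i ≤ p := (Nat.mul_le_mul_left _ hi).trans (Nat.mul_div_le p _)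
  -- the degrees of `f'`
  have hdeg : ∀ k, degreeOf k f' ≤ M := by
    intro k
    have h1 := hG.deg k
    rw [degreeOf_le_iff] at h1 ⊢
    intro u hu
    apply h1 u
    have h2 : u ∈ (map (zq p) f').support := by
      rw [support_map_of_injective _ (FaithfulSMul.algebraMap_injective ℤ_[p] ℚ_[p])]
      exact hu
    rw [← hlift] at h2
    rwa [support_map_of_injective _ ι.injective] at h2
  set m := (p - a') / M with hm
  have ha'p : a' ≤ p := (Nat.div_le_self _ _).trans hj'p.le
  have hMm : M * m ≤ p - a' := Nat.mul_div_le _ _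
  have hMm2 : p - a' < M * m + M := by
    have := Nat.lt_mul_div_succ (p - a') (show 0 < M by omega)
    rw [Nat.mul_succ] at this
    exact this
  set lo := p + 1 - M - M * m with hlo
  have hlo1 : 1 ≤ lo := by omega
  have hlo2 : lo ≤ a' := by omega
  have hi2 : M * i ≤ p - 1 := by
    have h1 : (2 * M + 1) * i = M * i + M * i + i := by ring
    have := hp'.pos
    rcases Nat.eq_zero_or_pos i with h0 | h0
    · rw [h0, mul_zero]; omega
    · omega
  have h2a : 2 * a' ≤ p := by
    have h1 : B * a' ≥ 2 * a' := by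
      apply Nat.mul_le_mul_right
      rw [hB]
      have : 1 * 2 ≤ n * (2 * M + 1) := Nat.mul_le_mul hn (by omega)
      linarith [Nat.mul_comm n (2 * M + 1)]
    omega
  obtain ⟨e, he, hec⟩ := hW n p i lo (fun _ => M) f' hdeg (fun _ => hi2) hlo1 (by omega)
    (fun _ => by omega) ⟨v, fun k => hlo2.trans (hv k), hvc⟩
  set hh : MvPolynomial (Fin n) ℤ_[p] := (∏ k, (1 + X k) ^ (p - 1 + lo - M * i)) * ft M f' ^ i
    with hhh
  have hec' : ¬ (p : ℤ_[p]) ∣ coeff e hh := hec
  set s : Fin n →₀ ℕ := Finsupp.equivFunOnFinite.symm (fun k => p - e k) with hs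
  have hsk : ∀ k, s k = p - e k := fun k => rfl
  set u : Fin n → ℕ := fun k => max 1 (s k - M * m) with hu
  have hss : ∀ k, 1 ≤ s k ∧ s k + lo ≤ p := by
    intro k
    have := he k
    have := hsk k
    omega
  have hu1 : ∀ k, 0 < u k ∧ u k < M := by
    intro k
    have := hss k
    simp only [hu]
    omega
  have hu2 : ∀ k, u k ≤ s k ∧ s k - u k ≤ M * m := by
    intro k
    have := hss k
    simp only [hu]
    omega
  have hdec : ∃ β : Fin m → Grid n M, mkE m (fun k => s k - u k) = ∑ j, gex (β j) :=
    hD n M (mkE m (fun k => s k - u k)) (fun k => by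
      rw [mkE_succ, mkE_zero]
      exact (hu2 k).2)
  obtain ⟨β, hβ⟩ := hdec
  refine ⟨m, i, fun b => (Finset.univ.filter fun j : Fin m => β j = b).card, u, coeff e hh,
    ?_, ?_, hu1, ?_, ?_, ?_⟩
  · have h1 := Finset.card_eq_sum_card_fiberwise (f := β) (s := Finset.univ) (t := Finset.univ)
      (fun _ _ => Finset.mem_univ _)
    rw [Finset.card_fin] at h1
    exact h1.symm
  · have h1 : 5 * i ≤ p := (Nat.mul_le_mul_right i (by omega)).trans hBi
    have h2 : 2 * m ≤ M * m := Nat.mul_le_mul_right m hM2
    omega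
  · have h1 : ‖coeff e hh‖ = 1 := by
      by_contra hne
      have h2 : ‖coeff e hh‖ < 1 := lt_of_le_of_ne (PadicInt.norm_le_one _) hne
      exact hec' ((PadicInt.norm_lt_one_iff_dvd _).mp h2)
    exact PadicInt.isUnit_iff.mpr h1
  · have h1 : 2 * B * M * m + 2 * B * a' ≤ 2 * B * p := by
      calc 2 * B * M * m + 2 * B * a' = 2 * B * (M * m + a') := by ring
        _ ≤ 2 * B * p := Nat.mul_le_mul_left _ (by omega)
    have h2 : B * 1 ≤ B * a' := Nat.mul_le_mul_left _ (by omega)
    have h3 : 2 * B * a' = B * a' + B * a' := by ring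
    omega
  · set r : ℤ_[p] →+* ZMod p := PadicInt.toZMod with hr
    have hprod : (∏ b : Grid n M, (mon (gex b) : PP n ℤ_[p]) ^
        (Finset.univ.filter fun j : Fin m => β j = b).card) =
        mon (mkE m (fun k => s k - u k)) := by
      rw [hβ]
      exact prod_mult (n := n) (M := M) (m := m) (R := ℤ_[p]) β
    have hi5 : 5 * i ≤ p := (Nat.mul_le_mul_right i (by omega)).trans hBi
    have hm2 : 2 * m ≤ M * m := Nat.mul_le_mul_right m hM2
    have hle : m + i + 1 ≤ p := by omega
    have hexp : M * (p - 1 - m - i) = (M - 2) * p + (p - 1 + lo - M * i) := by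
      obtain ⟨M', hM'⟩ : ∃ M', M = M' + 2 := ⟨M - 2, by omega⟩
      have h1 : M * (p - 1 - m - i) + M * m + M * i + M = M * p := by
        have : p = (p - 1 - m - i) + m + i + 1 := by omega
        conv_rhs => rw [this]
        ring
      have h2 : (M - 2) * p + 2 * p = M * p := by
        rw [hM']
        simp only [Nat.add_sub_cancel]
        ring
      omega
    have htot : mon (mkE 1 u) * (∏ b : Grid n M, (mon (gex b) : PP n ℤ_[p]) ^
        (Finset.univ.filter fun j : Fin m => β j = b).card) *
          Fp (fun β : Grid n M => ((bin β : ℕ) : ℤ_[p])) ^ (p - 1 - m - i) *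
          Fp (fun β : Grid n M => ftil f' β) ^ i =
        (X 0 * ∏ k : Fin n, (1 + X k.succ) ^ (M - 2)) ^ p *
          rename Fin.succ (monomial s 1 * hh) := by
      rw [hprod, Fp_bin, Fp_ftil f' hdeg, mon_mkE, mon_mkE, hhh, map_mul, map_mul, map_prod,
        map_pow, rename_monomial]
      have h1 : (monomial (Finsupp.mapDomain Fin.succ s) (1 : ℤ_[p]) : PP n ℤ_[p]) =
          (∏ k : Fin n, X k.succ ^ u k) * ∏ k : Fin n, X k.succ ^ (s k - u k) := by
        rw [← Finset.prod_mul_distrib]
        have h2 : Finsupp.mapDomain Fin.succ s = mkE 0 (fun k => s k) := by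
          ext j
          refine Fin.cases ?_ (fun k => ?_) j
          · rw [mkE_zero, Finsupp.mapDomain_of_notMem_range]
            rintro ⟨k, hk⟩
            exact absurd hk (Fin.succ_ne_zero k)
          · rw [mkE_succ, Finsupp.mapDomain_apply (Fin.succ_injective n)]
        rw [h2, monomial_mkE, C_1, one_mul, pow_zero, one_mul]
        apply Finset.prod_congr rfl
        intro k _
        rw [← pow_add]
        congr 1
        have := (hu2 k).1
        omega
      rw [h1]
      simp only [map_pow, map_add, map_one, rename_X]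
      rw [mul_pow, mul_pow, mul_pow, ← Finset.prod_pow, ← Finset.prod_pow]
      have h3 : ∀ k : Fin n, ((1 + X k.succ : PP n ℤ_[p]) ^ M) ^ (p - 1 - m - i) =
          ((1 + X k.succ) ^ (M - 2)) ^ p * (1 + X k.succ) ^ (p - 1 + lo - M * i) := by
        intro k
        rw [← pow_mul, ← pow_mul, ← pow_add, hexp]
      rw [Finset.prod_congr rfl fun k _ => h3 k, Finset.prod_mul_distrib]
      have h4 : (X 0 : PP n ℤ_[p]) ^ p = X 0 ^ 1 * X 0 ^ m * X 0 ^ (p - 1 - m - i) * X 0 ^ i := by
        rw [← pow_add, ← pow_add, ← pow_add]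
        congr 1
        omega
      rw [h4]
      ring
    have hhdeg : ∀ k, degreeOf k (map r hh) ≤ p - 1 + lo := by
      intro k
      have h0 : degreeOf k hh ≤ p - 1 + lo := by
        rw [hhh]
        refine (degreeOf_mul_le _ _ _).trans ?_
        have h1 := degreeOf_prod_one_add (R := ℤ_[p]) (fun _ : Fin n => p - 1 + lo - M * i) k
        have h2 : degreeOf k (ft M f' ^ i) ≤ i * M :=
          (degreeOf_pow_le _ _ _).trans (Nat.mul_le_mul_left _ (degreeOf_ft f' hdeg k))
        have h3 : i * M = M * i := Nat.mul_comm _ _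
        omega
      rw [degreeOf_le_iff] at h0 ⊢
      intro t ht
      exact h0 t (support_map_subset _ _ ht)
    rw [htot, C_dvd_iff, map_sub, ← psi_map hp'.pos, map_mul, map_pow, ← expand_zmod, mul_comm,
      psi_mul_expand hp'.pos, map_rename, map_mul, map_monomial, map_one,
      psi_window hp'.pos s e (map r hh) (fun k => (hss k).1) (fun k => by
        have := he k
        have := hsk k
        omega) (fun k => (he k).1) hhdeg, coeff_map, map_mul, map_X, map_prod,
      map_mul (map PadicInt.toZMod) (C (coeff e hh)), map_C, map_omg]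
    unfold omg
    rw [Finset.prod_mul_distrib]
    simp only [map_pow, map_add, map_one, map_X]
    ring

end Pool.Agent.Helper95_CM.H46
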